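import Mathlib

set_option autoImplicit false

/-!
# Project GL++ (MP_120218), Base: rich translates, scaling, estimates (copies of the lemmas of
GL.GrowR, GL.Final and GLP.GrowB)
-/

namespace Pool.Agent.Helper15.GPQ

open Finset

/-- scaling a set of positive rationals to positive integers -/
theorem scale_pos (P : Finset ℚ) (hP : ∀ s ∈ P, 0 < s) :
    ∃ (D : ℕ) (σ : ℚ → ℕ), 0 < D ∧ ∀ s ∈ P, σ s ≠ 0 ∧ ((σ s : ℕ) : ℚ) = s * D := by
  classical
  obtain ⟨D, hD⟩ : ∃ D : ℕ, D = ∏ s ∈ P, s.den := ⟨_, rfl⟩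
  have hD0 : 0 < D := by
    rw [hD]
    exact Finset.prod_pos fun s _ => s.den_pos
  refine ⟨D, fun s => (s * D).num.natAbs, hD0, fun s hs => ?_⟩
  have hpos : 0 < s * D := mul_pos (hP s hs) (by exact_mod_cast hD0)
  obtain ⟨m, hm⟩ : s.den ∣ D := by
    rw [hD]
    exact Finset.dvd_prod_of_mem _ hs
  have hint : s * D = ((s.num * m : ℤ) : ℚ) := by
    rw [hm]
    push_cast
    rw [← mul_assoc, Rat.mul_den_eq_num]
  have hnum : (s * D).num = s.num * m := by rw [hint]; exact Rat.num_intCast _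
  have hpos' : 0 < (s * D).num := Rat.num_pos.2 hpos
  obtain ⟨N, hN⟩ : ∃ N : ℕ, (s * D).num = N := ⟨(s * D).num.toNat, by omega⟩
  refine ⟨?_, ?_⟩
  · show (s * D).num.natAbs ≠ 0
    rw [hN, Int.natAbs_natCast]
    intro h
    rw [hN, h] at hpos'
    simp at hpos'
  · show (((s * D).num.natAbs : ℕ) : ℚ) = s * D
    rw [hN, Int.natAbs_natCast]
    have h1 : ((s.num * m : ℤ) : ℚ) = ((N : ℤ) : ℚ) := by rw [← hnum, hN]
    rw [hint, h1]
    norm_cast

/-- the elements of `A` in `z P` -/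
def rich (A : Finset ℤ) (P : Finset ℚ) (z : ℚ) : Finset ℤ :=
  A.filter (fun a : ℤ => ∃ s ∈ P, (a : ℚ) = z * s)

theorem mem_rich {A : Finset ℤ} {P : Finset ℚ} {z : ℚ} {a : ℤ} :
    a ∈ rich A P z ↔ a ∈ A ∧ ∃ s ∈ P, (a : ℚ) = z * s := Finset.mem_filter

theorem rich_le (A : Finset ℤ) (P : Finset ℚ) (z : ℚ) : (rich A P z).card ≤ P.card := by
  classical
  calc (rich A P z).card = ((rich A P z).image (fun a : ℤ => (a : ℚ))).card := by
        rw [Finset.card_image_of_injective _ Int.cast_injective]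
    _ ≤ (P.image (fun s => z * s)).card := by
        refine Finset.card_le_card fun x hx => ?_
        obtain ⟨a, ha, rfl⟩ := Finset.mem_image.1 hx
        obtain ⟨_, s, hs, has⟩ := mem_rich.1 ha
        exact Finset.mem_image.2 ⟨s, hs, has.symm⟩
    _ ≤ P.card := Finset.card_image_le

/-- `A` expands every set `X` with `|X| ≤ |A|^B` almost maximally -/
def GrowsB (η B : ℝ) (A : Finset ℤ) : Prop :=
  ∀ X : Finset ℤ, X.Nonempty → Real.log X.card ≤ B * Real.log A.card →
    (1 - η) * (Real.log X.card + Real.log A.card) ≤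
      Real.log ((Finset.image₂ (fun a b => a + b) X A).card)

/-- `log y ≤ λ y + log (1 / λ)` -/
theorem log_le_lin (l y : ℝ) (hl : 0 < l) (hy : 0 < y) : Real.log y ≤ l * y + Real.log (1 / l) := by
  have h1 := Real.log_le_sub_one_of_pos (mul_pos hl hy)
  rw [Real.log_mul hl.ne' hy.ne'] at h1
  rw [one_div, Real.log_inv]
  linarith

/-- the binomial coefficient `binom (N + r) r` -/
theorem choose_le (N r : ℕ) (hr : 1 ≤ r) :
    (((N + r).choose r : ℕ) : ℝ) ≤ (Real.exp 1 * ((N : ℝ) + r) / r) ^ r := by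
  have hr0 : (0 : ℝ) < r := by exact_mod_cast hr
  have h1 := Nat.choose_le_pow_div (α := ℝ) r (N + r)
  have h2 := Real.pow_div_factorial_le_exp (r : ℝ) hr0.le r
  have hf : (0 : ℝ) < r.factorial := by exact_mod_cast r.factorial_pos
  refine h1.trans ?_
  rw [div_le_iff₀ hf, div_pow, mul_pow, ← Real.exp_nat_mul, mul_one]
  rw [div_le_iff₀ hf] at h2
  rw [div_mul_eq_mul_div, le_div_iff₀ (by positivity)]
  push_cast
  have h3 : (0 : ℝ) ≤ ((N : ℝ) + r) ^ r := by positivity
  calc ((N : ℝ) + r) ^ r * (r : ℝ) ^ r ≤ ((N : ℝ) + r) ^ r * (Real.exp r * r.factorial) :=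
        mul_le_mul_of_nonneg_left h2 h3
    _ = Real.exp r * ((N : ℝ) + r) ^ r * r.factorial := by ring

theorem log_choose_le (N r : ℕ) (l : ℝ) (hl : 0 < l) :
    Real.log (((N + r).choose r : ℕ) : ℝ) ≤ r + l * ((N : ℝ) + r) + r * Real.log (1 / l) := by
  rcases Nat.eq_zero_or_pos r with rfl | hr
  · simp only [Nat.choose_zero_right, Nat.cast_one, Real.log_one, Nat.cast_zero, zero_mul,
      add_zero, zero_add]
    positivity
  · have hr0 : (0 : ℝ) < r := by exact_mod_cast hr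
    have hc : (0 : ℝ) < (((N + r).choose r : ℕ) : ℝ) := by
      exact_mod_cast Nat.choose_pos (by omega)
    have h1 := Real.log_le_log hc (choose_le N r hr)
    have hy : (0 : ℝ) < ((N : ℝ) + r) / r := by positivity
    rw [mul_div_assoc, Real.log_pow, Real.log_mul (Real.exp_pos 1).ne' hy.ne',
      Real.log_exp] at h1
    have h2 := log_le_lin l _ hl hy
    have h3 : (r : ℝ) * Real.log (((N : ℝ) + r) / r) ≤
        r * (l * (((N : ℝ) + r) / r) + Real.log (1 / l)) := mul_le_mul_of_nonneg_left h2 hr0.le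
    have h4 : (r : ℝ) * (l * (((N : ℝ) + r) / r) + Real.log (1 / l)) =
        l * ((N : ℝ) + r) + r * Real.log (1 / l) := by
      field_simp
    rw [h4] at h3
    linarith

theorem choose_mono (N r r' : ℕ) (h : r' ≤ r) : (N + r').choose r' ≤ (N + r).choose r := by
  have e1 : (N + r').choose r' = (N + r').choose N := by
    rw [← Nat.choose_symm_add]
  have e2 : (N + r).choose r = (N + r).choose N := by
    rw [← Nat.choose_symm_add]
  rw [e1, e2]
  exact Nat.choose_le_choose N (by omega)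

/-- a common denominator -/
theorem scale_int (Z : Finset ℚ) : ∃ E : ℕ, 0 < E ∧ ∀ z ∈ Z, ((z * E).num : ℚ) = z * E := by
  classical
  obtain ⟨D, hD⟩ : ∃ D : ℕ, D = ∏ s ∈ Z, s.den := ⟨_, rfl⟩
  have hD0 : 0 < D := by
    rw [hD]
    exact Finset.prod_pos fun s _ => s.den_pos
  refine ⟨D, hD0, fun s hs => ?_⟩
  obtain ⟨m, hm⟩ : s.den ∣ D := by
    rw [hD]
    exact Finset.dvd_prod_of_mem _ hs
  have hint : s * D = ((s.num * m : ℤ) : ℚ) := by
    rw [hm]
    push_cast
    rw [← mul_assoc, Rat.mul_den_eq_num]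
  rw [hint, Rat.num_intCast]

theorem card_scale (E : ℕ) (hE : 0 < E) (X : Finset ℤ) :
    (X.image (fun x => (E : ℤ) * x)).card = X.card := by
  refine Finset.card_image_of_injective _ fun x y h => ?_
  have hE' : (E : ℤ) ≠ 0 := by exact_mod_cast hE.ne'
  exact mul_left_cancel₀ hE' h

theorem card_sum_scale (E : ℕ) (hE : 0 < E) (X A : Finset ℤ) :
    (Finset.image₂ (fun a b => a + b) (X.image (fun x => (E : ℤ) * x))
      (A.image (fun x => (E : ℤ) * x))).card =
      (Finset.image₂ (fun a b => a + b) X A).card := by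
  rw [← card_scale E hE (Finset.image₂ (fun a b => a + b) X A)]
  congr 1
  ext w
  simp only [Finset.mem_image₂, Finset.mem_image]
  constructor
  · rintro ⟨_, ⟨x, hx, rfl⟩, _, ⟨y, hy, rfl⟩, rfl⟩
    exact ⟨x + y, ⟨x, hx, y, hy, rfl⟩, by ring⟩
  · rintro ⟨_, ⟨x, hx, y, hy, rfl⟩, rfl⟩
    exact ⟨_, ⟨x, hx, rfl⟩, _, ⟨y, hy, rfl⟩, by ring⟩

end Pool.Agent.Helper15.GPQ
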