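import Pool.Agent.Helper15.GPQ.Opt

set_option autoImplicit false

/-!
# Project GL++ (MP_120218), Fib: counting fibres of the multiplication map
-/

namespace Pool.Agent.Helper15.GPQ

open Finset

open Classical in
/-- a rational number as a unit -/
noncomputable def ut (x : ℚ) : ℚˣ := if h : x ≠ 0 then Units.mk0 x h else 1

theorem ut_val {x : ℚ} (h : x ≠ 0) : ((ut x : ℚˣ) : ℚ) = x := by
  unfold ut
  rw [dif_pos h]
  rfl

theorem ut_inj {x y : ℚ} (hx : x ≠ 0) (hy : y ≠ 0) (h : ut x = ut y) : x = y := by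
  rw [← ut_val hx, ← ut_val hy, h]

theorem ut_mul {x y : ℚ} (hx : x ≠ 0) (hy : y ≠ 0) : ut (x * y) = ut x * ut y := by
  apply Units.ext
  rw [ut_val (mul_ne_zero hx hy), Units.val_mul, ut_val hx, ut_val hy]

theorem growsB_of_sub (η B : ℝ) (hη : 0 < η) (hη1 : η ≤ 1) (hB : 0 ≤ B) (A A' : Finset ℤ)
    (hA'A : A' ⊆ A) (hA' : A'.Nonempty) (h4 : (A.card : ℝ) ≤ 4 * A'.card)
    (ha : 2 * Real.log 4 ≤ η * Real.log A.card) (hb : (B + 1) * Real.log 4 ≤ Real.log A.card)
    (hG : GrowsB (η / 2) (B + 1) A') : GrowsB η B A := by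
  intro X hX hXB
  have hA'1 : (1 : ℝ) ≤ A'.card := by exact_mod_cast hA'.card_pos
  have hA1 : (1 : ℝ) ≤ A.card := by exact_mod_cast (hA'.mono hA'A).card_pos
  have hX1 : (1 : ℝ) ≤ X.card := by exact_mod_cast hX.card_pos
  have hx : 0 ≤ Real.log X.card := Real.log_nonneg hX1
  have h1 : Real.log A.card ≤ Real.log 4 + Real.log A'.card := by
    rw [← Real.log_mul (by norm_num) (by linarith)]
    exact Real.log_le_log (by linarith) h4
  have hl4 : 0 < Real.log 4 := Real.log_pos (by norm_num)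
  have h2 : Real.log X.card ≤ (B + 1) * Real.log A'.card := by
    have h3 := mul_le_mul_of_nonneg_left h1 (show 0 ≤ B + 1 by linarith)
    linarith
  have h3 := hG X hX h2
  have h4' : (0 : ℝ) < (Finset.image₂ (fun a b => a + b) X A').card := by
    exact_mod_cast Finset.card_pos.2 (hX.image₂ hA')
  have h5 : ((Finset.image₂ (fun a b => a + b) X A').card : ℝ) ≤
      (Finset.image₂ (fun a b => a + b) X A).card := by
    exact_mod_cast Finset.card_le_card (Finset.image₂_subset_left hA'A)
  have h6 := Real.log_le_log h4' h5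
  refine le_trans ?_ (h3.trans h6)
  have h7 : (1 - η / 2) * (Real.log A.card - Real.log 4) ≤ (1 - η / 2) * Real.log A'.card :=
    mul_le_mul_of_nonneg_left (by linarith) (by linarith)
  have h8 : 0 ≤ η * Real.log X.card := mul_nonneg hη.le hx
  have h9 : 0 ≤ η * Real.log 4 := mul_nonneg hη.le hl4.le
  nlinarith

theorem prd_card_mono (A : Finset ℤ) {P Q : Finset ℚ} (h : P ⊆ Q) :
    (prd A P).card ≤ (prd A Q).card :=
  Finset.card_le_card (Finset.image₂_subset_left h)

/-- counting pairs -/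
theorem count_pairs (A A1 : Finset ℤ) (hA1 : A1 ⊆ A) (h0 : (0 : ℤ) ∉ A1) (P Q : Finset ℚ)
    (hQ : Q = P.image (fun s => s⁻¹)) (hP0 : ∀ s ∈ P, s ≠ 0) :
    A1.card * P.card ≤ ∑ z ∈ prd A P, (rich A1 Q z).card := by
  classical
  rw [← Finset.card_product]
  have hmaps : ∀ x ∈ A1 ×ˢ P, (x.1 : ℚ) * x.2 ∈ prd A P := by
    rintro ⟨a, s⟩ hx
    rw [Finset.mem_product] at hx
    exact Finset.mem_image₂_of_mem (hA1 hx.1) hx.2
  rw [Finset.card_eq_sum_card_fiberwise hmaps]
  refine Finset.sum_le_sum fun z _ => ?_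
  refine Finset.card_le_card_of_injOn (fun x => x.1) ?_ ?_
  · rintro ⟨a, s⟩ hx
    have hx' := Finset.mem_filter.1 (Finset.mem_coe.1 hx)
    have hx'' := Finset.mem_product.1 hx'.1
    have hs0 := hP0 s hx''.2
    refine Finset.mem_coe.2 (mem_rich.2 ⟨hx''.1, s⁻¹, ?_, ?_⟩)
    · rw [hQ]
      exact Finset.mem_image_of_mem _ hx''.2
    · have h1 : (a : ℚ) * s = z := hx'.2
      show (a : ℚ) = z * s⁻¹
      rw [← h1]
      field_simp
  · rintro ⟨a, s⟩ hx ⟨a', s'⟩ hx' haa
    have hx1 := Finset.mem_filter.1 (Finset.mem_coe.1 hx)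
    have hx1' := Finset.mem_filter.1 (Finset.mem_coe.1 hx')
    have haa' : a = a' := haa
    subst haa'
    have h3 : (a : ℚ) * s = (a : ℚ) * s' := hx1.2.trans hx1'.2.symm
    have ha0 : a ≠ 0 := fun h => h0 (h ▸ (Finset.mem_product.1 hx1.1).1)
    have h4 : (a : ℚ) ≠ 0 := by exact_mod_cast ha0
    rw [mul_left_cancel₀ h4 h3]

/-- few rich fibres: many products -/
theorem prd_rank (A : Finset ℤ) (P : Finset ℚ) (hP0 : ∀ s ∈ P, s ≠ 0) (T : ℝ) (hT : 0 ≤ T)
    (w : ℝ) (hw : ∀ Z : Finset ℚ, (∀ z ∈ Z, T < ((rich A (P.image (fun s => s⁻¹)) z).card : ℝ)) →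
      (Z.card : ℝ) ≤ w) :
    (A.card : ℝ) * P.card ≤ (w + 1) * P.card + T * (prd A P).card := by
  classical
  have hcount := count_pairs A (A.erase 0) (Finset.erase_subset _ _) (Finset.notMem_erase _ _)
    P _ rfl hP0
  obtain ⟨Z, hZ⟩ : ∃ Z : Finset ℚ, Z = (prd A P).filter
      (fun z => T < ((rich A (P.image (fun s => s⁻¹)) z).card : ℝ)) := ⟨_, rfl⟩
  have hZw : (Z.card : ℝ) ≤ w := hw Z fun z hz => by
    rw [hZ, Finset.mem_filter] at hz
    exact hz.2
  have hle : ∀ z, ((rich (A.erase 0) (P.image (fun s => s⁻¹)) z).card : ℝ) ≤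
      (rich A (P.image (fun s => s⁻¹)) z).card := by
    intro z
    have h1 : (rich (A.erase 0) (P.image (fun s => s⁻¹)) z).card ≤
        (rich A (P.image (fun s => s⁻¹)) z).card := by
      refine Finset.card_le_card fun a ha => ?_
      obtain ⟨haA, h⟩ := mem_rich.1 ha
      exact mem_rich.2 ⟨Finset.mem_of_mem_erase haA, h⟩
    exact_mod_cast h1
  have hPinv : ((P.image (fun s => s⁻¹)).card : ℝ) ≤ P.card := by
    exact_mod_cast Finset.card_image_le
  have h3 : (((A.erase 0).card * P.card : ℕ) : ℝ) ≤ w * P.card + T * (prd A P).card := by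
    have hP00 : (0 : ℝ) ≤ P.card := Nat.cast_nonneg _
    calc (((A.erase 0).card * P.card : ℕ) : ℝ) ≤
          ((∑ z ∈ prd A P, (rich (A.erase 0) (P.image (fun s => s⁻¹)) z).card : ℕ) : ℝ) := by
            exact_mod_cast hcount
      _ = ∑ z ∈ prd A P, ((rich (A.erase 0) (P.image (fun s => s⁻¹)) z).card : ℝ) := by
            push_cast; rfl
      _ ≤ ∑ z ∈ prd A P, ((if z ∈ Z then (P.card : ℝ) else 0) + T) := by
            refine Finset.sum_le_sum fun z hz => ?_
            by_cases h : z ∈ Z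
            · rw [if_pos h]
              have h4 : ((rich (A.erase 0) (P.image (fun s => s⁻¹)) z).card : ℝ) ≤
                  (P.image (fun s => s⁻¹)).card := by
                exact_mod_cast rich_le _ _ z
              linarith
            · rw [if_neg h, zero_add]
              refine (hle z).trans ?_
              by_contra hcon
              apply h
              rw [hZ, Finset.mem_filter]
              exact ⟨hz, not_le.1 hcon⟩
      _ = Z.card * P.card + T * (prd A P).card := by
            rw [Finset.sum_add_distrib, Finset.sum_const, nsmul_eq_mul, ← Finset.sum_filter]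
            have h5 : (prd A P).filter (fun z => z ∈ Z) = Z := by
              ext z
              rw [Finset.mem_filter]
              refine ⟨fun h => h.2, fun h => ⟨?_, h⟩⟩
              rw [hZ] at h
              exact (Finset.mem_filter.1 h).1
            rw [h5, Finset.sum_const, nsmul_eq_mul]
            ring
      _ ≤ w * P.card + T * (prd A P).card := by
            have := mul_le_mul_of_nonneg_right hZw hP00
            linarith
  push_cast at h3
  have h4 := Finset.pred_card_le_card_erase (s := A) (a := (0 : ℤ))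
  have h5 : A.card ≤ (A.erase 0).card + 1 := by omega
  have h6 : (A.card : ℝ) ≤ (A.erase 0).card + 1 := by exact_mod_cast h5
  have hP00 : (0 : ℝ) ≤ P.card := Nat.cast_nonneg _
  nlinarith

theorem fin_bound (N w T D p q : ℝ) (hp : 0 ≤ p) (hw : w + 1 ≤ N / 2)
    (h : N * p ≤ (w + 1) * p + T * q) (hTD : 2 * T ≤ D) (hq : 0 ≤ q) : N * p ≤ D * q := by
  nlinarith

end Pool.Agent.Helper15.GPQ
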