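import Pool.Agent.Helper15.GPQ.Comb
import Pool.Agent.Helper15.GPQ.Fib
import Pool.Agent.Helper28.GPP.Plun

set_option autoImplicit false

/-!
# Project GL++ (MP_120218), Box: the powers of a set of positive rationals
-/

namespace Pool.Agent.Helper15.GPQ

open Finset Pool.Agent.Helper15.GPP Pool.Agent.Helper15.GLP
open scoped Pointwise

/-- the vector of valuations -/
def vv {R : ℕ} (q : Fin R → ℕ) (x : ℚˣ) : Fin R → ℤ := fun j => padicValRat (q j) (x : ℚ)

theorem vv_mul {R : ℕ} (q : Fin R → ℕ) (hq : ∀ j, (q j).Prime) (x y : ℚˣ) :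
    vv q (x * y) = vv q x + vv q y := by
  funext j
  have := Fact.mk (hq j)
  show padicValRat (q j) ((x * y : ℚˣ) : ℚ) = padicValRat (q j) (x : ℚ) + padicValRat (q j) (y : ℚ)
  rw [Units.val_mul]
  exact padicValRat.mul x.ne_zero y.ne_zero

theorem vv_one {R : ℕ} (q : Fin R → ℕ) : vv q 1 = 0 := by
  funext j
  show padicValRat (q j) ((1 : ℚˣ) : ℚ) = 0
  rw [Units.val_one, padicValRat.one]

theorem js_image {R : ℕ} (q : Fin R → ℕ) (hq : ∀ j, (q j).Prime) (B : Finset ℚˣ) (n : ℕ) :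
    (B ^ n).image (vv q) = js (B.image (vv q)) n := by
  induction n with
  | zero =>
    rw [pow_zero]
    show (1 : Finset ℚˣ).image (vv q) = {0}
    rw [← vv_one q]
    exact Finset.image_singleton _ _
  | succ n ih =>
    rw [pow_succ]
    show (B ^ n * B).image (vv q) = Finset.image₂ (fun x y => x + y) (js (B.image (vv q)) n)
      (B.image (vv q))
    rw [← ih]
    ext z
    constructor
    · intro hz
      obtain ⟨w, hw, rfl⟩ := Finset.mem_image.1 hz
      obtain ⟨x, hx, y, hy, rfl⟩ := Finset.mem_mul.1 hw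
      rw [vv_mul q hq]
      exact Finset.mem_image₂_of_mem (Finset.mem_image_of_mem _ hx) (Finset.mem_image_of_mem _ hy)
    · intro hz
      obtain ⟨x', hx', y', hy', rfl⟩ := Finset.mem_image₂.1 hz
      obtain ⟨x, hx, rfl⟩ := Finset.mem_image.1 hx'
      obtain ⟨y, hy, rfl⟩ := Finset.mem_image.1 hy'
      exact Finset.mem_image.2 ⟨x * y, Finset.mul_mem_mul hx hy, vv_mul q hq x y⟩

/-- the primes of a set of positive rationals -/
theorem exists_primes (P : Finset ℚ) (hpos : ∀ s ∈ P, 0 < s) :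
    ∃ (R : ℕ) (q : Fin R → ℕ), (∀ j, (q j).Prime) ∧ ∀ n : ℕ, (∀ x ∈ (P.image ut) ^ n, 0 < (x : ℚ)) ∧
      Set.InjOn (vv q) (((P.image ut) ^ n : Finset ℚˣ) : Set ℚˣ) := by
  classical
  obtain ⟨Q, hQ⟩ : ∃ Q : Finset ℕ, Q = P.biUnion (fun h =>
    h.num.natAbs.primeFactors ∪ h.den.primeFactors) := ⟨_, rfl⟩
  obtain ⟨R, hR⟩ : ∃ R : ℕ, Q.card = R := ⟨_, rfl⟩
  obtain ⟨q, hq⟩ : ∃ q : Fin R → ℕ, q = fun j => Q.orderEmbOfFin hR j := ⟨_, rfl⟩
  have hqQ : ∀ j, q j ∈ Q := by
    intro j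
    rw [hq]
    exact Finset.orderEmbOfFin_mem Q hR j
  have hqp : ∀ j, (q j).Prime := by
    intro j
    have h1 := hqQ j
    rw [hQ, Finset.mem_biUnion] at h1
    obtain ⟨h, _, h2⟩ := h1
    rcases Finset.mem_union.1 h2 with h3 | h3
    · exact (Nat.mem_primeFactors.1 h3).1
    · exact (Nat.mem_primeFactors.1 h3).1
  have hqs : ∀ p ∈ Q, ∃ j, q j = p := by
    intro p hp
    have h1 : p ∈ Set.range (Q.orderEmbOfFin hR) := by
      rw [Finset.range_orderEmbOfFin]
      exact hp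
    obtain ⟨j, hj⟩ := h1
    exact ⟨j, by rw [hq]; exact hj⟩
  have key : ∀ n : ℕ, ∀ x ∈ (P.image ut) ^ n, 0 < (x : ℚ) ∧
      ∀ p : ℕ, p.Prime → p ∉ Q → padicValRat p (x : ℚ) = 0 := by
    intro n
    induction n with
    | zero =>
      intro x hx
      rw [pow_zero, Finset.mem_one] at hx
      rw [hx, Units.val_one]
      exact ⟨one_pos, fun p _ _ => padicValRat.one⟩
    | succ n ih =>
      intro x hx
      rw [pow_succ] at hx
      obtain ⟨y, hy, z, hz, rfl⟩ := Finset.mem_mul.1 hx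
      obtain ⟨s, hs, rfl⟩ := Finset.mem_image.1 hz
      obtain ⟨h1, h2⟩ := ih y hy
      have h3 := hpos s hs
      rw [Units.val_mul, ut_val h3.ne']
      refine ⟨mul_pos h1 h3, fun p hp hpQ => ?_⟩
      have := Fact.mk hp
      rw [padicValRat.mul h1.ne' h3.ne', h2 p hp hpQ, zero_add]
      have h4 : p ∉ s.num.natAbs.primeFactors ∪ s.den.primeFactors := by
        intro h4
        exact hpQ (by rw [hQ]; exact Finset.mem_biUnion.2 ⟨s, hs, h4⟩)
      rw [Finset.mem_union, not_or] at h4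
      exact padicValRat_eq_zero p hp s h3.ne' h4.1 h4.2
  refine ⟨R, q, hqp, fun n => ⟨fun x hx => (key n x hx).1, ?_⟩⟩
  intro x hx y hy hxy
  obtain ⟨hx1, hx2⟩ := key n x (Finset.mem_coe.1 hx)
  obtain ⟨hy1, hy2⟩ := key n y (Finset.mem_coe.1 hy)
  have h1 : (x : ℚ) / y = 1 := by
    refine Pool.Agent.Helper15.GL.eq_one_of_val _ (div_pos hx1 hy1) fun p hp => ?_
    have := Fact.mk hp
    rw [padicValRat.div hx1.ne' hy1.ne']
    by_cases hpQ : p ∈ Q
    · obtain ⟨j, rfl⟩ := hqs p hpQ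
      have h3 : padicValRat (q j) (x : ℚ) = padicValRat (q j) (y : ℚ) := congrFun hxy j
      rw [h3, sub_self]
    · rw [hx2 p hp hpQ, hy2 p hp hpQ, sub_self]
  exact Units.ext ((div_eq_one_iff_eq hy1.ne').1 h1)

/-- **Boxes** in the order shape of the multiples give subsets of the powers whose elements are
determined by few valuations. -/
theorem box_set (P : Finset ℚ) (hP : P.Nonempty) (hpos : ∀ s ∈ P, 0 < s) :
    ∃ (R : ℕ) (S : Finset (Fin R → ℤ)), S.Nonempty ∧ S.card = P.card ∧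
      (∀ n : ℕ, (js S n).card = ((P.image ut) ^ n).card) ∧
      ∀ (n : ℕ), ∀ a ∈ osh R (js S n), ∀ b : Fin R → ℕ, (∀ j, b j ≤ a j) →
        ∃ (pr : Fin (sup b) → ℕ) (Q : Finset ℚ), (∀ i, (pr i).Prime) ∧ Q.card = bx b ∧
          (∀ s ∈ Q, 0 < s) ∧ (∀ s ∈ Q, ∃ x ∈ (P.image ut) ^ n, (x : ℚ) = s) ∧
          ∀ s ∈ Q, ∀ t ∈ Q, (∀ i, padicValRat (pr i) s = padicValRat (pr i) t) → s = t := by
  classical
  obtain ⟨R, q, hq, hq2⟩ := exists_primes P hpos
  have hcard : ∀ n : ℕ, (js ((P.image ut).image (vv q)) n).card = ((P.image ut) ^ n).card := by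
    intro n
    rw [← js_image q hq, Finset.card_image_of_injOn (hq2 n).2]
  refine ⟨R, (P.image ut).image (vv q), (hP.image _).image _, ?_, hcard, ?_⟩
  · have h1 := hcard 1
    rw [js_one_card, pow_one] at h1
    rw [h1, Finset.card_image_of_injOn]
    intro x hx y hy hxy
    exact ut_inj (hpos x (Finset.mem_coe.1 hx)).ne' (hpos y (Finset.mem_coe.1 hy)).ne' hxy
  · intro n a ha b hba
    obtain ⟨L, hLS, hLc, hL⟩ := leaves _ b ((osh_tr R _ a ha).mono hba)
    obtain ⟨J, hJ⟩ : ∃ J : Finset (Fin R), J = Finset.univ.filter (fun j => b j ≠ 0) := ⟨_, rfl⟩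
    have hr : J.card = sup b := by rw [hJ]; rfl
    obtain ⟨Qu, hQu⟩ : ∃ Qu : Finset ℚˣ, Qu = ((P.image ut) ^ n).filter (fun x => vv q x ∈ L) :=
      ⟨_, rfl⟩
    have memQu : ∀ x, x ∈ Qu ↔ x ∈ (P.image ut) ^ n ∧ vv q x ∈ L := by
      intro x
      rw [hQu, Finset.mem_filter]
    have hQuL : Qu.image (vv q) = L := by
      ext l
      rw [Finset.mem_image]
      constructor
      · rintro ⟨x, hx, rfl⟩
        exact ((memQu x).1 hx).2
      · intro hl
        have h1 := hLS hl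
        rw [← js_image q hq] at h1
        obtain ⟨x, hx, rfl⟩ := Finset.mem_image.1 h1
        exact ⟨x, (memQu x).2 ⟨hx, hl⟩, rfl⟩
    have hQuc : Qu.card = bx b := by
      rw [← hLc, ← hQuL, Finset.card_image_of_injOn]
      intro x hx y hy hxy
      exact (hq2 n).2 (Finset.mem_coe.2 ((memQu x).1 (Finset.mem_coe.1 hx)).1)
        (Finset.mem_coe.2 ((memQu y).1 (Finset.mem_coe.1 hy)).1) hxy
    refine ⟨fun i => q (J.orderEmbOfFin hr i), Qu.image (fun x : ℚˣ => (x : ℚ)), fun i => hq _,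
      ?_, ?_, ?_, ?_⟩
    · rw [Finset.card_image_of_injective _ Units.val_injective, hQuc]
    · intro s hs
      obtain ⟨x, hx, rfl⟩ := Finset.mem_image.1 hs
      exact (hq2 n).1 x ((memQu x).1 hx).1
    · intro s hs
      obtain ⟨x, hx, rfl⟩ := Finset.mem_image.1 hs
      exact ⟨x, ((memQu x).1 hx).1, rfl⟩
    · intro s hs t ht hst
      obtain ⟨x, hx, rfl⟩ := Finset.mem_image.1 hs
      obtain ⟨y, hy, rfl⟩ := Finset.mem_image.1 ht
      obtain ⟨hx1, hx2⟩ := (memQu x).1 hx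
      obtain ⟨hy1, hy2⟩ := (memQu y).1 hy
      have h1 : vv q x = vv q y := by
        refine hL _ hx2 _ hy2 fun j hj => ?_
        have h1 : j ∈ Set.range (J.orderEmbOfFin hr) := by
          rw [Finset.range_orderEmbOfFin, hJ]
          exact Finset.mem_coe.2 (Finset.mem_filter.2 ⟨Finset.mem_univ j, hj⟩)
        obtain ⟨i, rfl⟩ := h1
        exact hst i
      rw [(hq2 n).2 (Finset.mem_coe.2 hx1) (Finset.mem_coe.2 hy1) h1]

/-- **Pluennecke**: a large subset of `A` grows slowly under the powers of `P`. -/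
theorem sub_pow (A : Finset ℤ) (P : Finset ℚ) (hA2 : 2 ≤ A.card) (hP : P.Nonempty)
    (hP0 : ∀ s ∈ P, s ≠ 0) (K : ℝ) (hK : 4 * ((prd A P).card : ℝ) ≤ K * A.card) (n : ℕ) :
    (((P.image ut) ^ n).card : ℝ) ≤ K ^ n * A.card ∧
    ∃ A' : Finset ℤ, A' ⊆ A ∧ A'.Nonempty ∧ (A.card : ℝ) ≤ 4 * A'.card ∧
      ∀ Q : Finset ℚ, (∀ s ∈ Q, ∃ x ∈ (P.image ut) ^ n, (x : ℚ) = s) →
        ((prd A' Q).card : ℝ) ≤ K ^ n * A'.card := by
  classical
  have hN2 : (2 : ℝ) ≤ A.card := by exact_mod_cast hA2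
  have hK0 : 0 ≤ K := by
    have h1 : (0 : ℝ) ≤ K * A.card := le_trans (by positivity) hK
    by_contra hcon
    rw [not_le] at hcon
    nlinarith
  obtain ⟨A1, hA1⟩ : ∃ A1 : Finset ℤ, A1 = A.erase 0 := ⟨_, rfl⟩
  have hA10 : ∀ a ∈ A1, (a : ℚ) ≠ 0 := by
    intro a ha
    rw [hA1, Finset.mem_erase] at ha
    exact_mod_cast ha.1
  have hA1A : A1 ⊆ A := by rw [hA1]; exact Finset.erase_subset _ _
  have hA1c : (A.card : ℝ) ≤ 2 * A1.card := by
    have h1 := Finset.pred_card_le_card_erase (s := A) (a := (0 : ℤ))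
    rw [← hA1] at h1
    have : A.card ≤ 2 * A1.card := by omega
    exact_mod_cast this
  have hA1N : (A1.card : ℝ) ≤ A.card := by
    exact_mod_cast Finset.card_le_card hA1A
  obtain ⟨Au, hAu⟩ : ∃ Au : Finset ℚˣ, Au = A1.image (fun a : ℤ => ut (a : ℚ)) := ⟨_, rfl⟩
  have hAinj : Set.InjOn (fun a : ℤ => ut (a : ℚ)) A1 := by
    intro a ha b hb h
    have h1 := ut_inj (hA10 a (Finset.mem_coe.1 ha)) (hA10 b (Finset.mem_coe.1 hb)) h
    exact_mod_cast h1
  have hAuc : Au.card = A1.card := by rw [hAu, Finset.card_image_of_injOn hAinj]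
  have hprodc : (Au * P.image ut).card ≤ (prd A P).card := by
    have h1 : Au * P.image ut ⊆ (prd A P).image ut := by
      intro z hz
      obtain ⟨x, hx, y, hy, rfl⟩ := Finset.mem_mul.1 hz
      rw [hAu] at hx
      obtain ⟨a, ha, rfl⟩ := Finset.mem_image.1 hx
      obtain ⟨s, hs, rfl⟩ := Finset.mem_image.1 hy
      refine Finset.mem_image.2 ⟨(a : ℚ) * s, ?_, ut_mul (hA10 a ha) (hP0 s hs)⟩
      exact Finset.mem_image₂_of_mem (hA1A ha) hs
    exact (Finset.card_le_card h1).trans Finset.card_image_le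
  have hKu : ((Au * P.image ut).card : ℝ) ≤ K / 2 * Au.card := by
    have h1 : ((Au * P.image ut).card : ℝ) ≤ (prd A P).card := by exact_mod_cast hprodc
    rw [hAuc]
    have h2 : K * (A.card : ℝ) ≤ K * (2 * A1.card) := mul_le_mul_of_nonneg_left hA1c hK0
    linarith
  obtain ⟨A'u, hA'u, hA'uc, hA'K⟩ := Pool.Agent.Helper28.GPP.exists_half (K / 2) hKu
    (by positivity) n
  have h2K : 2 * (K / 2) = K := by ring
  rw [h2K] at hA'K
  have hA'ue : A'u.Nonempty := by
    rw [← Finset.card_pos]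
    have h1 : 0 < Au.card := by
      rw [hAuc]
      have : (0 : ℝ) < A1.card := by linarith
      exact_mod_cast this
    omega
  obtain ⟨A', hA'⟩ : ∃ A' : Finset ℤ, A' = A1.filter (fun a : ℤ => ut (a : ℚ) ∈ A'u) := ⟨_, rfl⟩
  have hA'c : A'.card = A'u.card := by
    have h1 : A'.image (fun a : ℤ => ut (a : ℚ)) = A'u := by
      ext x
      rw [Finset.mem_image]
      constructor
      · rintro ⟨a, ha, rfl⟩
        rw [hA', Finset.mem_filter] at ha
        exact ha.2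
      · intro hx
        have h2 := hA'u hx
        rw [hAu] at h2
        obtain ⟨a, ha, rfl⟩ := Finset.mem_image.1 h2
        exact ⟨a, by rw [hA', Finset.mem_filter]; exact ⟨ha, hx⟩, rfl⟩
    rw [← h1, Finset.card_image_of_injOn]
    exact hAinj.mono (by rw [hA']; exact Finset.coe_subset.2 (Finset.filter_subset _ _))
  have hA'A : A' ⊆ A := by
    rw [hA']
    exact (Finset.filter_subset _ _).trans hA1A
  refine ⟨?_, A', hA'A, ?_, ?_, ?_⟩
  · have h1 : (((P.image ut) ^ n).card : ℝ) ≤ (A'u * (P.image ut) ^ n).card := by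
      exact_mod_cast Finset.card_le_card_mul_left hA'ue
    refine h1.trans (hA'K.trans (mul_le_mul_of_nonneg_left ?_ (by positivity)))
    have h2 : (A'u.card : ℝ) ≤ Au.card := by exact_mod_cast Finset.card_le_card hA'u
    rw [hAuc] at h2
    linarith
  · rw [← Finset.card_pos, hA'c]
    exact hA'ue.card_pos
  · rw [hA'c]
    have h1 : (Au.card : ℝ) ≤ 2 * A'u.card := by exact_mod_cast hA'uc
    rw [hAuc] at h1
    linarith
  · intro Q hQ
    have h1 : (prd A' Q).card ≤ (A'u * (P.image ut) ^ n).card := by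
      have h2 : prd A' Q ⊆ (A'u * (P.image ut) ^ n).image (fun h : ℚˣ => (h : ℚ)) := by
        intro z hz
        unfold prd at hz
        obtain ⟨a, ha, s, hs, rfl⟩ := Finset.mem_image₂.1 hz
        obtain ⟨x, hx, rfl⟩ := hQ s hs
        rw [hA', Finset.mem_filter] at ha
        refine Finset.mem_image.2 ⟨ut (a : ℚ) * x, Finset.mul_mem_mul ha.2 hx, ?_⟩
        rw [Units.val_mul, ut_val (hA10 a ha.1)]
      exact (Finset.card_le_card h2).trans Finset.card_image_le
    rw [hA'c]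
    refine le_trans ?_ hA'K
    exact_mod_cast h1

end Pool.Agent.Helper15.GPQ
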