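import Pool.Agent.Helper15.GPP.Tree

set_option autoImplicit false

/-!
# Project GL++ (MP_120218), Comb: large boxes of small dimension in the multiples of a set
-/

namespace Pool.Agent.Helper15.GPQ

open Finset Pool.Agent.Helper15.GPP Pool.Agent.Helper15.GLP

/-- the `j`-fold sums -/
def js {R : ℕ} (S : Finset (Fin R → ℤ)) : ℕ → Finset (Fin R → ℤ)
  | 0 => {0}
  | j + 1 => Finset.image₂ (fun x y => x + y) (js S j) S

theorem js_add {R : ℕ} (S : Finset (Fin R → ℤ)) (a b : ℕ) :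
    Finset.image₂ (fun x y => x + y) (js S a) (js S b) ⊆ js S (a + b) := by
  induction b with
  | zero =>
    intro z hz
    obtain ⟨x, hx, y, hy, rfl⟩ := Finset.mem_image₂.1 hz
    have h1 : y = 0 := Finset.mem_singleton.1 hy
    show x + y ∈ js S a
    rw [h1, add_zero]
    exact hx
  | succ b ih =>
    intro z hz
    obtain ⟨x, hx, y, hy, rfl⟩ := Finset.mem_image₂.1 hz
    obtain ⟨w, hw, s, hs, rfl⟩ := Finset.mem_image₂.1 hy
    have h1 : x + (w + s) = (x + w) + s := (add_assoc _ _ _).symm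
    show x + (w + s) ∈ js S (a + b + 1)
    rw [h1]
    exact Finset.mem_image₂_of_mem (ih (Finset.mem_image₂_of_mem hx hw)) hs

theorem js_one_card {R : ℕ} (S : Finset (Fin R → ℤ)) : (js S 1).card = S.card := by
  have h1 : js S 1 = S := by
    ext z
    constructor
    · intro hz
      obtain ⟨x, hx, y, hy, rfl⟩ := Finset.mem_image₂.1 hz
      have h1 : x = 0 := Finset.mem_singleton.1 hx
      rw [h1, zero_add]
      exact hy
    · intro hz
      have h1 : (0 : Fin R → ℤ) ∈ js S 0 := Finset.mem_singleton.2 rfl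
      have h2 := Finset.mem_image₂_of_mem (f := fun x y => x + y) h1 hz
      simp only [zero_add] at h2
      exact h2
  rw [h1]

theorem js_nonempty {R : ℕ} (S : Finset (Fin R → ℤ)) (hS : S.Nonempty) (j : ℕ) :
    (js S j).Nonempty := by
  induction j with
  | zero => exact ⟨0, Finset.mem_singleton.2 rfl⟩
  | succ j ih => exact ih.image₂ hS

theorem osh_mul {R : ℕ} (S : Finset (Fin R → ℤ)) (j : ℕ) (a : Fin R → ℕ)
    (ha : a ∈ osh R (js S j)) (m : ℕ) (hm : 1 ≤ m) :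
    (fun i => m * a i) ∈ osh R (js S (m * j)) := by
  induction m, hm using Nat.le_induction with
  | base =>
    have h1 : (fun i => 1 * a i) = a := by
      funext i
      rw [one_mul]
    rw [h1, one_mul]
    exact ha
  | succ m _ ih =>
    have h1 : (fun i => (m + 1) * a i) = (fun i => m * a i) + a := by
      funext i
      rw [Pi.add_apply]
      ring
    rw [h1, Nat.succ_mul]
    exact osh_mono R _ _ (js_add S (m * j) j) (osh_add R _ _ _ ih _ ha)

theorem exists_osh {R : ℕ} (S : Finset (Fin R → ℤ)) (hS : S.Nonempty) (K : ℝ)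
    (hK : ((Finset.image₂ (fun a b => a + b) S S).card : ℝ) ≤ K * S.card) :
    ∃ a ∈ osh R S, (S.card : ℝ) ≤ 4 * K * ((bx a : ℕ) : ℝ) ^ 2 := by
  classical
  have hc := card_osh R S
  have hne : (osh R S).Nonempty := by
    rw [← Finset.card_pos, hc]
    exact hS.card_pos
  have h1 : ((Finset.image₂ (fun a b => a + b) (osh R S) (osh R S)).card : ℝ) ≤
      K * (osh R S).card := by
    rw [hc]
    refine le_trans ?_ hK
    rw [← card_osh R (Finset.image₂ (fun a b => a + b) S S)]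
    have h2 : (Finset.image₂ (fun a b => a + b) (osh R S) (osh R S)) ⊆
        osh R (Finset.image₂ (fun a b => a + b) S S) := by
      intro z hz
      obtain ⟨a, ha, b, hb, rfl⟩ := Finset.mem_image₂.1 hz
      exact osh_add R S S a ha b hb
    exact_mod_cast Finset.card_le_card h2
  obtain ⟨a, ha, -, h3⟩ := down_shape (osh R S) hne (osh_down R S) K h1
  rw [hc] at h3
  exact ⟨a, ha, h3⟩

/-- the number of non-zero coordinates -/
def sup {R : ℕ} (a : Fin R → ℕ) : ℕ := (Finset.univ.filter (fun j => a j ≠ 0)).card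

theorem two_pow_le_bx {R : ℕ} (a : Fin R → ℕ) : 2 ^ sup a ≤ bx a := by
  unfold sup
  rw [← wt_eq]
  unfold wt bx
  refine Finset.prod_le_prod' fun j _ => ?_
  by_cases h : a j = 0
  · rw [if_pos h]
    omega
  · rw [if_neg h]
    omega

theorem bx_eq_one {R : ℕ} (a : Fin R → ℕ) (h : sup a = 0) : bx a = 1 := by
  unfold sup at h
  rw [Finset.card_eq_zero, Finset.filter_eq_empty_iff] at h
  unfold bx
  refine Finset.prod_eq_one fun j hj => ?_
  have h1 := h hj
  push Not at h1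
  rw [h1, zero_add]

theorem bx_mul {R : ℕ} (a : Fin R → ℕ) (m : ℕ) :
    ((m : ℝ) / 2) ^ sup a * ((bx a : ℕ) : ℝ) ≤ ((bx (fun i => m * a i) : ℕ) : ℝ) := by
  have h1 : ((m : ℝ) / 2) ^ sup a = ∏ j, (if a j = 0 then (1 : ℝ) else (m : ℝ) / 2) := by
    unfold sup
    rw [← Finset.prod_const, Finset.prod_filter]
    refine Finset.prod_congr rfl fun j _ => ?_
    by_cases h : a j = 0
    · rw [if_pos h, if_neg (not_not.2 h)]
    · rw [if_neg h, if_pos h]
  rw [h1]
  unfold bx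
  push_cast
  rw [← Finset.prod_mul_distrib]
  have hm : (0 : ℝ) ≤ m := Nat.cast_nonneg m
  refine Finset.prod_le_prod (fun j _ => ?_) fun j _ => ?_
  · have ha : (0 : ℝ) ≤ a j := Nat.cast_nonneg _
    split_ifs <;> positivity
  · by_cases h : a j = 0
    · rw [if_pos h, h]
      simp
    · rw [if_neg h]
      have ha : (1 : ℝ) ≤ a j := by exact_mod_cast Nat.one_le_iff_ne_zero.2 h
      have h2 : (m : ℝ) ≤ m * a j := le_mul_of_one_le_right hm ha
      linarith

/-- the first scale of slow growth -/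
theorem scale (f : ℕ → ℝ) (u L c' : ℝ) (hu : 1 ≤ u) (huL : u ≤ L) (hc0 : 0 ≤ c')
    (hc : c' ≤ 1 / 8) (h0 : f 0 = u) (hf : ∀ i, f i ≤ c' * u ^ 2 / L * 2 ^ i + L) :
    ∃ i : ℕ, u ≤ f i ∧ f i ≤ 2 * L ∧ f (i + 1) ≤ 3 / 2 * f i ∧ u ^ 2 * 2 ^ i ≤ f i ^ 2 := by
  have hu0 : 0 < u := by linarith
  have hL : 0 < L := by linarith
  have hex : ∃ n : ℕ, 2 * L < (3 / 2 : ℝ) ^ n * u := by
    obtain ⟨n, hn⟩ := pow_unbounded_of_one_lt (2 * L / u) (show (1 : ℝ) < 3 / 2 by norm_num)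
    exact ⟨n, by rwa [div_lt_iff₀ hu0] at hn⟩
  classical
  obtain ⟨I, hI⟩ : ∃ I : ℕ, I = Nat.find hex := ⟨_, rfl⟩
  have hI1 : 2 * L < (3 / 2 : ℝ) ^ I * u := by rw [hI]; exact Nat.find_spec hex
  have hI2 : ∀ n < I, (3 / 2 : ℝ) ^ n * u ≤ 2 * L := by
    intro n hn
    rw [hI] at hn
    exact not_lt.1 (Nat.find_min hex hn)
  have hpow : ∀ n : ℕ, u ^ 2 * 2 ^ n ≤ ((3 / 2 : ℝ) ^ n * u) ^ 2 := by
    intro n
    have h1 : (2 : ℝ) ^ n ≤ (9 / 4) ^ n := pow_le_pow_left₀ (by norm_num) (by norm_num) n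
    have h2 : ((3 / 2 : ℝ) ^ n * u) ^ 2 = u ^ 2 * (9 / 4) ^ n := by
      rw [mul_pow, ← pow_mul, mul_comm n 2, pow_mul]
      norm_num
      ring
    rw [h2]
    exact mul_le_mul_of_nonneg_left h1 (sq_nonneg u)
  have hpow2 : ∀ n < I, u ^ 2 * 2 ^ n ≤ 4 * L ^ 2 := by
    intro n hn
    refine (hpow n).trans ?_
    have h1 : 0 ≤ (3 / 2 : ℝ) ^ n * u := by positivity
    calc ((3 / 2 : ℝ) ^ n * u) ^ 2 ≤ (2 * L) ^ 2 := pow_le_pow_left₀ h1 (hI2 n hn) 2
      _ = 4 * L ^ 2 := by ring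
  have hbd : ∀ x : ℝ, x ≤ 8 * L ^ 2 → c' * x / L ≤ L := by
    intro x hx
    rw [div_le_iff₀ hL]
    calc c' * x ≤ c' * (8 * L ^ 2) := mul_le_mul_of_nonneg_left hx hc0
      _ = (8 * c') * L ^ 2 := by ring
      _ ≤ 1 * L ^ 2 := mul_le_mul_of_nonneg_right (by linarith) (by positivity)
      _ = L * L := by ring
  have hfx : ∀ n : ℕ, u ^ 2 * 2 ^ n ≤ 8 * L ^ 2 → f n ≤ 2 * L := by
    intro n hn
    have h1 := hf n
    have h2 := hbd _ hn
    have h3 : c' * u ^ 2 / L * 2 ^ n = c' * (u ^ 2 * 2 ^ n) / L := by ring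
    rw [h3] at h1
    linarith
  have hI0 : I ≠ 0 := by
    intro h
    rw [h, pow_zero, one_mul] at hI1
    linarith
  have hfI : f I ≤ 2 * L := by
    apply hfx
    obtain ⟨n, hn⟩ : ∃ n, I = n + 1 := Nat.exists_eq_succ_of_ne_zero hI0
    have h1 := hpow2 n (by omega)
    have h2 : (2 : ℝ) ^ I = 2 ^ n * 2 := by rw [hn, pow_succ]
    rw [h2]
    linarith
  have hex2 : ∃ n : ℕ, f n < (3 / 2 : ℝ) ^ n * u := ⟨I, lt_of_le_of_lt hfI hI1⟩
  obtain ⟨J, hJ⟩ : ∃ J : ℕ, J = Nat.find hex2 := ⟨_, rfl⟩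
  have hJ1 : f J < (3 / 2 : ℝ) ^ J * u := by rw [hJ]; exact Nat.find_spec hex2
  have hJ2 : ∀ n < J, (3 / 2 : ℝ) ^ n * u ≤ f n := by
    intro n hn
    rw [hJ] at hn
    exact not_lt.1 (Nat.find_min hex2 hn)
  have hJI : J ≤ I := by
    rw [hJ]
    exact Nat.find_min' hex2 (lt_of_le_of_lt hfI hI1)
  have hJ0 : J ≠ 0 := by
    intro h
    rw [h, pow_zero, one_mul, h0] at hJ1
    exact lt_irrefl _ hJ1
  obtain ⟨i, hi⟩ : ∃ i, J = i + 1 := Nat.exists_eq_succ_of_ne_zero hJ0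
  have h1 := hJ2 i (by omega)
  have h2 := hpow2 i (by omega)
  have h3 : (0 : ℝ) ≤ (3 / 2 : ℝ) ^ i * u := by positivity
  refine ⟨i, ?_, ?_, ?_, ?_⟩
  · refine le_trans ?_ h1
    exact le_mul_of_one_le_left hu0.le (one_le_pow₀ (by norm_num))
  · apply hfx
    have : 0 ≤ L ^ 2 := by positivity
    linarith
  · rw [← hi]
    refine hJ1.le.trans ?_
    rw [hi, pow_succ]
    linarith
  · exact (hpow i).trans (pow_le_pow_left₀ h3 h1 2)

theorem le_exp_half (x : ℝ) (hx : 0 ≤ x) : x ≤ Real.exp (x / 2) := by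
  have h1 := Real.add_one_le_exp (x / 4)
  have h2 : Real.exp (x / 2) = Real.exp (x / 4) * Real.exp (x / 4) := by
    rw [← Real.exp_add]
    congr 1
    ring
  have h3 : (x / 4 + 1) * (x / 4 + 1) ≤ Real.exp (x / 4) * Real.exp (x / 4) :=
    mul_le_mul h1 h1 (by linarith) (Real.exp_pos _).le
  rw [h2]
  nlinarith [sq_nonneg (x / 4 - 1)]

/-- **A large box of small dimension** in the multiples of a set. -/
theorem comb (C2 c5 : ℝ) (hC2 : 0 < C2) (hc5 : 0 < c5) (hc5' : c5 ≤ 1 / 4) :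
    ∃ c' U0 : ℝ, 0 < c' ∧ 1 ≤ U0 ∧ ∀ (R : ℕ) (S : Finset (Fin R → ℤ)) (u L : ℝ), S.Nonempty →
      u = Real.log S.card → U0 ≤ u → u ≤ L →
      (∀ j : ℕ, 1 ≤ j → Real.log (js S j).card ≤ c' * u ^ 2 / L * j + L) →
      ∃ (n : ℕ) (a : Fin R → ℕ) (β : ℝ), 1 ≤ n ∧ a ∈ osh R (js S n) ∧ 16 ≤ β ∧ β ≤ c5 * L ∧
        c' * u ^ 2 / L * n ≤ β / 16 ∧ 1 ≤ sup a ∧ (sup a : ℝ) ≤ 2 * c5 * L ∧
        sup a * Real.log (C2 * L / sup a) + β / 2 ≤ Real.log ((bx a : ℕ) : ℝ) := by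
  classical
  obtain ⟨D, hD⟩ : ∃ D : ℝ, D = 8 / c5 + 32 * C2 / c5 ^ 2 := ⟨_, rfl⟩
  have hD0 : 0 < D := by rw [hD]; positivity
  obtain ⟨c', hc'⟩ : ∃ c' : ℝ, c' = min (1 / 8) (1 / (16 * D)) := ⟨_, rfl⟩
  have hc'0 : 0 < c' := by rw [hc']; exact lt_min (by norm_num) (by positivity)
  have hc'8 : c' ≤ 1 / 8 := by rw [hc']; exact min_le_left _ _
  have hc'D : c' * D ≤ 1 / 16 := by
    have h1 : c' ≤ 1 / (16 * D) := by rw [hc']; exact min_le_right _ _
    calc c' * D ≤ 1 / (16 * D) * D := mul_le_mul_of_nonneg_right h1 hD0.le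
      _ = 1 / 16 := by field_simp
  have hU : 0 < 64 / c5 := by positivity
  refine ⟨c', 64 / c5 + 8, hc'0, by linarith, ?_⟩
  intro R S u L hS hu hU0 huL hb
  have hu8 : 8 ≤ u := by linarith
  have hL : 0 < L := by linarith
  have hcardpos : ∀ j, (0 : ℝ) < (js S j).card := by
    intro j
    exact_mod_cast (js_nonempty S hS j).card_pos
  obtain ⟨f, hf⟩ : ∃ f : ℕ → ℝ, f = fun i => Real.log (js S (2 ^ i)).card := ⟨_, rfl⟩
  have hfe : ∀ i, Real.exp (f i) = (js S (2 ^ i)).card := by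
    intro i
    rw [hf]
    exact Real.exp_log (hcardpos _)
  obtain ⟨i, hFu, hFL, hF2, hFi⟩ := scale f u L c' (by linarith) huL hc'0.le hc'8 (by
      rw [hf]
      simp only [pow_zero]
      rw [js_one_card, hu]) (by
      intro i
      have h1 := hb (2 ^ i) (Nat.one_le_two_pow)
      rw [hf]
      push_cast at h1
      exact h1)
  obtain ⟨F, hFd⟩ : ∃ F : ℝ, F = f i := ⟨_, rfl⟩
  rw [← hFd] at hFu hFL hF2 hFi
  have hF8 : 8 ≤ F := by linarith
  have hF0 : 0 < F := by linarith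
  have hTne := js_nonempty S hS (2 ^ i)
  have hTe : ((js S (2 ^ i)).card : ℝ) = Real.exp F := by rw [hFd, hfe]
  obtain ⟨a0, ha0, ha0c⟩ := exists_osh (js S (2 ^ i)) hTne (Real.exp (F / 2)) (by
    have h1 := Finset.card_le_card (js_add S (2 ^ i) (2 ^ i))
    have h2 : 2 ^ i + 2 ^ i = 2 ^ (i + 1) := by rw [pow_succ]; ring
    rw [h2] at h1
    have h3 : ((Finset.image₂ (fun a b => a + b) (js S (2 ^ i)) (js S (2 ^ i))).card : ℝ) ≤
        (js S (2 ^ (i + 1))).card := by exact_mod_cast h1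
    refine h3.trans ?_
    rw [← hfe, hTe, ← Real.exp_add]
    exact Real.exp_le_exp.2 (by linarith))
  rw [hTe] at ha0c
  have hbx0 : Real.exp (F / 8) ≤ ((bx a0 : ℕ) : ℝ) := by
    have h1 : Real.exp F = Real.exp (F / 2) * (Real.exp (F / 4) * Real.exp (F / 8) ^ 2) := by
      rw [← Real.exp_nat_mul, ← Real.exp_add, ← Real.exp_add]
      congr 1
      push_cast
      ring
    rw [h1] at ha0c
    have h2 : Real.exp (F / 4) * Real.exp (F / 8) ^ 2 ≤ 4 * ((bx a0 : ℕ) : ℝ) ^ 2 := by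
      have h3 : Real.exp (F / 2) * (Real.exp (F / 4) * Real.exp (F / 8) ^ 2) ≤
          Real.exp (F / 2) * (4 * ((bx a0 : ℕ) : ℝ) ^ 2) := by linarith
      exact le_of_mul_le_mul_left h3 (Real.exp_pos _)
    have h4 : (4 : ℝ) ≤ Real.exp (F / 4) := by
      have h5 := Real.add_one_le_exp (F / 8)
      have h6 : Real.exp (F / 4) = Real.exp (F / 8) * Real.exp (F / 8) := by
        rw [← Real.exp_add]
        congr 1
        ring
      have h7 : (2 : ℝ) * 2 ≤ Real.exp (F / 8) * Real.exp (F / 8) :=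
        mul_le_mul (by linarith) (by linarith) (by norm_num) (Real.exp_pos _).le
      rw [h6]
      linarith
    have h5 : 4 * Real.exp (F / 8) ^ 2 ≤ Real.exp (F / 4) * Real.exp (F / 8) ^ 2 :=
      mul_le_mul_of_nonneg_right h4 (sq_nonneg _)
    have h6 : Real.exp (F / 8) ^ 2 ≤ ((bx a0 : ℕ) : ℝ) ^ 2 := by linarith
    exact (pow_le_pow_iff_left₀ (Real.exp_pos _).le (Nat.cast_nonneg _) (by norm_num)).1 h6
  -- the small box
  obtain ⟨T0, hT0⟩ : ∃ T0 : ℕ, T0 = ⌊Real.exp (c5 * F / 2)⌋₊ := ⟨_, rfl⟩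
  have hT0le : (T0 : ℝ) ≤ Real.exp (c5 * F / 2) := by
    rw [hT0]
    exact Nat.floor_le (Real.exp_pos _).le
  have hT0lt : Real.exp (c5 * F / 2) < T0 + 1 := by
    rw [hT0]
    exact Nat.lt_floor_add_one _
  have hc5F : 0 ≤ c5 * F := by positivity
  have hc5F64 : 64 ≤ c5 * F := by
    have h1 : 64 / c5 ≤ F := by linarith
    rw [div_le_iff₀ hc5] at h1
    linarith
  have hT01 : 1 ≤ T0 := by
    have h1 : (1 : ℝ) ≤ Real.exp (c5 * F / 2) := Real.one_le_exp (by linarith)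
    have h2 : (0 : ℝ) < T0 := by linarith
    exact_mod_cast h2
  have hT0b : T0 ≤ bx a0 := by
    have h1 : (T0 : ℝ) ≤ ((bx a0 : ℕ) : ℝ) := by
      refine hT0le.trans (le_trans (Real.exp_le_exp.2 ?_) hbx0)
      have h2 : c5 * F ≤ 1 / 4 * F := mul_le_mul_of_nonneg_right hc5' hF0.le
      linarith
    exact_mod_cast h1
  obtain ⟨b, hba, hb1, hb2⟩ := exists_sub_box T0 hT01 _ a0 rfl hT0b
  have hbosh : b ∈ osh R (js S (2 ^ i)) := osh_down R _ a0 ha0 b hba
  obtain ⟨β, hβ⟩ : ∃ β : ℝ, β = Real.log ((bx b : ℕ) : ℝ) := ⟨_, rfl⟩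
  have hbxb : (0 : ℝ) < ((bx b : ℕ) : ℝ) := by exact_mod_cast bx_pos b
  have hβup : β ≤ c5 * F / 2 := by
    rw [hβ, Real.log_le_iff_le_exp hbxb]
    refine le_trans ?_ hT0le
    exact_mod_cast hb1
  have hβlow : c5 * F / 4 ≤ β := by
    have h1 : Real.exp (c5 * F / 2) ≤ 2 * ((bx b : ℕ) : ℝ) := by
      have h2 : ((T0 + 1 : ℕ) : ℝ) ≤ ((2 * bx b : ℕ) : ℝ) := by exact_mod_cast hb2
      push_cast at h2
      linarith
    have h3 := Real.log_le_log (Real.exp_pos _) h1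
    rw [Real.log_exp, Real.log_mul (by norm_num) hbxb.ne', ← hβ] at h3
    have h4 := Real.log_two_lt_d9
    linarith
  have hβ16 : 16 ≤ β := by linarith
  have hβ0 : 0 < β := by linarith
  have hβL : β ≤ c5 * L := by
    refine hβup.trans ?_
    have : c5 * F ≤ c5 * (2 * L) := mul_le_mul_of_nonneg_left hFL hc5.le
    linarith
  obtain ⟨r, hr⟩ : ∃ r : ℕ, r = sup b := ⟨_, rfl⟩
  have hr1 : 1 ≤ r := by
    by_contra hcon
    have h1 : sup b = 0 := by omega
    rw [hβ, bx_eq_one b h1] at hβ0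
    simp at hβ0
  have hr0 : (0 : ℝ) < r := by exact_mod_cast hr1
  have hrβ : (r : ℝ) ≤ 2 * β := by
    have h1 := two_pow_le_bx b
    rw [← hr] at h1
    have h2 : (2 : ℝ) ^ r ≤ ((bx b : ℕ) : ℝ) := by exact_mod_cast h1
    have h3 := Real.log_le_log (by positivity) h2
    rw [Real.log_pow, ← hβ] at h3
    have h4 := Real.log_two_gt_d9
    have h5 : (r : ℝ) * (1 / 2) ≤ r * Real.log 2 := mul_le_mul_of_nonneg_left (by linarith) hr0.le
    linarith
  -- the multiple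
  obtain ⟨X, hX⟩ : ∃ X : ℝ, X = 2 * C2 * (L / r) * Real.exp (-(β / r / 2)) := ⟨_, rfl⟩
  have hX0 : 0 < X := by rw [hX]; positivity
  obtain ⟨m, hm⟩ : ∃ m : ℕ, m = ⌈X⌉₊ := ⟨_, rfl⟩
  have hmX : X ≤ m := by rw [hm]; exact Nat.le_ceil _
  have hmX1 : (m : ℝ) ≤ X + 1 := by
    rw [hm]
    exact (Nat.ceil_lt_add_one hX0.le).le
  have hm1 : 1 ≤ m := by
    have h1 : (0 : ℝ) < m := by linarith
    exact_mod_cast h1
  have hm0 : (0 : ℝ) < m := by exact_mod_cast hm1
  have hsup : sup (fun j => m * b j) = r := by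
    rw [hr]
    unfold sup
    congr 1
    refine Finset.filter_congr fun j _ => ?_
    constructor
    · intro h h0
      apply h
      show m * b j = 0
      rw [h0, mul_zero]
    · intro h h0
      have h0' : m * b j = 0 := h0
      rcases Nat.mul_eq_zero.1 h0' with h1 | h1
      · omega
      · exact h h1
  refine ⟨m * 2 ^ i, fun j => m * b j, β, ?_, osh_mul S _ b hbosh m hm1, hβ16, hβL, ?_, ?_, ?_, ?_⟩
  · exact Nat.mul_pos hm1 (Nat.two_pow_pos i)
  · -- the cost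
    have h1 : c' * u ^ 2 / L * ((m * 2 ^ i : ℕ) : ℝ) = c' * (u ^ 2 * 2 ^ i) / L * m := by
      push_cast
      ring
    rw [h1]
    have h2 : c' * (u ^ 2 * 2 ^ i) / L ≤ c' * F ^ 2 / L :=
      div_le_div_of_nonneg_right (mul_le_mul_of_nonneg_left hFi hc'0.le) hL.le
    have h3 : c' * (u ^ 2 * 2 ^ i) / L * m ≤ c' * F ^ 2 / L * (X + 1) :=
      mul_le_mul h2 hmX1 hm0.le (by positivity)
    refine h3.trans ?_
    have hFβ : F ≤ 4 * β / c5 := by
      rw [le_div_iff₀ hc5]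
      linarith
    have h4 : c' * F ^ 2 / L ≤ c' * (8 / c5) * β := by
      have h5 : F ^ 2 / L ≤ 2 * F := by
        rw [div_le_iff₀ hL, sq]
        calc F * F ≤ F * (2 * L) := mul_le_mul_of_nonneg_left hFL hF0.le
          _ = 2 * F * L := by ring
      calc c' * F ^ 2 / L = c' * (F ^ 2 / L) := by ring
        _ ≤ c' * (2 * F) := mul_le_mul_of_nonneg_left h5 hc'0.le
        _ ≤ c' * (2 * (4 * β / c5)) := by gcongr
        _ = c' * (8 / c5) * β := by ring
    have h6 : c' * F ^ 2 / L * X ≤ c' * (32 * C2 / c5 ^ 2) * β := by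
      have h7 : c' * F ^ 2 / L * X = 2 * C2 * c' * F ^ 2 / r * Real.exp (-(β / r / 2)) := by
        rw [hX]
        field_simp
      rw [h7]
      have h8 : β / r * Real.exp (-(β / r / 2)) ≤ 1 := by
        have h9 := le_exp_half (β / r) (by positivity)
        calc β / r * Real.exp (-(β / r / 2)) ≤ Real.exp (β / r / 2) * Real.exp (-(β / r / 2)) :=
              mul_le_mul_of_nonneg_right h9 (Real.exp_pos _).le
          _ = 1 := by rw [← Real.exp_add, add_neg_cancel, Real.exp_zero]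
      have h10 : F ^ 2 ≤ (4 * β / c5) ^ 2 := pow_le_pow_left₀ hF0.le hFβ 2
      calc 2 * C2 * c' * F ^ 2 / r * Real.exp (-(β / r / 2)) ≤
            2 * C2 * c' * (4 * β / c5) ^ 2 / r * Real.exp (-(β / r / 2)) := by gcongr
        _ = c' * (32 * C2 / c5 ^ 2) * β * (β / r * Real.exp (-(β / r / 2))) := by
            field_simp
            ring
        _ ≤ c' * (32 * C2 / c5 ^ 2) * β * 1 := by gcongr
        _ = c' * (32 * C2 / c5 ^ 2) * β := mul_one _
    calc c' * F ^ 2 / L * (X + 1) = c' * F ^ 2 / L * X + c' * F ^ 2 / L := by ring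
      _ ≤ c' * (32 * C2 / c5 ^ 2) * β + c' * (8 / c5) * β := add_le_add h6 h4
      _ = (c' * D) * β := by rw [hD]; ring
      _ ≤ 1 / 16 * β := mul_le_mul_of_nonneg_right hc'D hβ0.le
      _ = β / 16 := by ring
  · rw [hsup]
    exact hr1
  · rw [hsup]
    linarith
  · rw [hsup]
    have h1 := bx_mul b m
    rw [← hr] at h1
    have h2 : 0 < ((m : ℝ) / 2) ^ r * ((bx b : ℕ) : ℝ) := by positivity
    have h3 := Real.log_le_log h2 h1
    refine le_trans ?_ h3
    rw [Real.log_mul (by positivity) hbxb.ne', Real.log_pow, ← hβ]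
    have h4 : Real.log (C2 * L / r) - β / r / 2 ≤ Real.log ((m : ℝ) / 2) := by
      have h5 : C2 * L / r * Real.exp (-(β / r / 2)) ≤ (m : ℝ) / 2 := by
        have h6 : C2 * L / r * Real.exp (-(β / r / 2)) = X / 2 := by
          rw [hX]
          ring
        linarith
      have h6 := Real.log_le_log (by positivity) h5
      rw [Real.log_mul (by positivity) (Real.exp_pos _).ne', Real.log_exp] at h6
      linarith
    have h5 := mul_le_mul_of_nonneg_left h4 hr0.le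
    have h6 : (r : ℝ) * (Real.log (C2 * L / r) - β / r / 2) =
        r * Real.log (C2 * L / r) - β / 2 := by
      field_simp
    rw [h6] at h5
    linarith

end Pool.Agent.Helper15.GPQ
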