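import Pool.Agent.Helper15.GLP.Conv

set_option autoImplicit false

/-!
# Project GL++ (MP_120218), Core: one shape for many multipliers (copy of the lemma of GLP.GrowU)
-/

namespace Pool.Agent.Helper15.GPQ

open Finset Pool.Agent.Helper15.GLP Pool.Agent.Helper62.GLP

/-- the combinatorial core: one shape for many multipliers -/
theorem shape_core (r' N : ℕ) (pr : Fin r' → ℕ) (P' : Finset ℕ)
    (hinj : ∀ s ∈ P', ∀ s' ∈ P', (∀ j, padicValNat (pr j) s = padicValNat (pr j) s') → s = s')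
    (A' : Finset ℤ) (W0 : Finset ℤ) (hW0 : W0.Nonempty)
    (hrich : ∀ w ∈ W0, (N + r').choose r' <
      (P'.filter (fun d : ℕ => (d : ℤ) * w ∈ A')).card) :
    ∃ (a : Fin r' → ℕ) (W : Finset ℤ), W ⊆ W0 ∧ W.Nonempty ∧ ∑ j, a j = N ∧
      (W0.card : ℝ) ≤ ((N + r').choose r' : ℕ) * W.card ∧
      ∀ z ∈ W, ∃ D : List ℕ → ℕ, Good (shp pr a) D ∧
        ∀ t, InBox (shp pr a) t → D t ∈ P' ∧ (D t : ℤ) * z ∈ A' := by
  classical
  obtain ⟨v, hv⟩ : ∃ v : ℕ → (Fin r' → ℤ),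
      v = fun d j => ((padicValNat (pr j) d : ℕ) : ℤ) := ⟨_, rfl⟩
  obtain ⟨S, hS⟩ : ∃ S : ℤ → Finset ℕ, S = fun w => P'.filter (fun d : ℕ => (d : ℤ) * w ∈ A') :=
    ⟨_, rfl⟩
  have memS : ∀ w d, d ∈ S w ↔ d ∈ P' ∧ (d : ℤ) * w ∈ A' := by
    intro w d
    rw [hS]
    exact Finset.mem_filter
  have hvinj : ∀ w, Set.InjOn v (S w) := by
    intro w d hd d' hd' h
    refine hinj d ((memS w d).1 (Finset.mem_coe.1 hd)).1 d' ((memS w d').1 (Finset.mem_coe.1 hd')).1
      fun j => ?_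
    have h1 := congrFun h j
    rw [hv] at h1
    simp only at h1
    exact_mod_cast h1
  have hex : ∀ w, ∃ a : Fin r' → ℕ, w ∈ W0 → (∑ j, a j = N ∧ Tr ((S w).image v) a) := by
    intro w
    by_cases hw : w ∈ W0
    · have h1 : (N + r').choose r' < ((S w).image v).card := by
        rw [Finset.card_image_of_injOn (hvinj w), hS]
        exact hrich w hw
      obtain ⟨a, ha⟩ := exists_shape ((S w).image v) N h1
      exact ⟨a, fun _ => ha⟩
    · exact ⟨fun _ => 0, fun h => absurd h hw⟩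
  choose a ha using hex
  have hmaps : ∀ w ∈ W0, a w ∈ shapes r' N := fun w hw => mem_shapes.2 (ha w hw).1.le
  have hshc : ((shapes r' N).card : ℝ) = (((N + r').choose r' : ℕ) : ℝ) := by rw [card_shapes]
  have hpos : 0 < (N + r').choose r' := Nat.choose_pos (by omega)
  have hposR : (0 : ℝ) < (((N + r').choose r' : ℕ) : ℝ) := by exact_mod_cast hpos
  have hshne : (shapes r' N).Nonempty := by
    rw [← Finset.card_pos, card_shapes]
    exact hpos
  obtain ⟨b, hb⟩ : ∃ b : ℝ, b = (W0.card : ℝ) / ((N + r').choose r' : ℕ) := ⟨_, rfl⟩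
  obtain ⟨y, hy, hyb⟩ := Finset.exists_le_card_fiber_of_nsmul_le_card_of_maps_to hmaps hshne
    (b := b) (by
      rw [nsmul_eq_mul, hshc, hb, mul_div_cancel₀ _ hposR.ne'])
  obtain ⟨W, hW⟩ : ∃ W : Finset ℤ, W = W0.filter (fun w => a w = y) := ⟨_, rfl⟩
  rw [← hW] at hyb
  have hWc : (W0.card : ℝ) ≤ ((N + r').choose r' : ℕ) * W.card := by
    rw [hb, div_le_iff₀ hposR] at hyb
    linarith
  have hWne : W.Nonempty := by
    rw [← Finset.card_pos]
    have h1 : (0 : ℝ) < W0.card := by exact_mod_cast hW0.card_pos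
    have h2 : (0 : ℝ) < W.card := by
      by_contra h
      have : (W.card : ℝ) = 0 := le_antisymm (not_lt.1 h) (Nat.cast_nonneg _)
      rw [this, mul_zero] at hWc
      linarith
    exact_mod_cast h2
  have memW : ∀ w ∈ W, w ∈ W0 ∧ a w = y := by
    intro w hw
    rw [hW] at hw
    exact Finset.mem_filter.1 hw
  refine ⟨y, W, fun w hw => (memW w hw).1, hWne, ?_, hWc, ?_⟩
  · obtain ⟨w, hw⟩ := hWne
    obtain ⟨h1, h2⟩ := memW w hw
    rw [← h2]
    exact (ha w h1).1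
  · intro z hz
    obtain ⟨h1, h2⟩ := memW z hz
    obtain ⟨_, s, hs1, hs2⟩ := ha z h1
    rw [h2] at hs1 hs2
    have hD0 : ∀ t : Fin r' → ℕ, ∃ d : ℕ, (∀ j, t j ≤ y j) → d ∈ S z ∧ v d = s t := by
      intro t
      by_cases ht : ∀ j, t j ≤ y j
      · obtain ⟨d, hd, hd2⟩ := Finset.mem_image.1 (hs1 t ht)
        exact ⟨d, fun _ => ⟨hd, hd2⟩⟩
      · exact ⟨0, fun h => absurd h ht⟩
    choose D0 hD0 using hD0
    obtain ⟨D, hG, hD⟩ := conv pr y s D0 (fun t ht j => by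
      have h3 := congrFun (hD0 t ht).2 j
      rw [hv] at h3
      exact h3) hs2
    refine ⟨D, hG, fun t ht => ?_⟩
    obtain ⟨t', ht', h4⟩ := hD t ht
    have h5 := (memS z _).1 (hD0 t' ht').1
    rw [h4]
    exact h5

end Pool.Agent.Helper15.GPQ
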