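import Pool.Agent.Helper15.GPQ.Final
import Pool.Agent.Helper15.GPQ.Quant

set_option autoImplicit false

/-!
# Project GL++ (MP_120218), Final2: the sums-alone theorem with the quantitative expansion
-/

namespace Pool.Agent.Helper15.GPQ

open Finset Pool.Agent.Helper28.LN

theorem AllD.mono {ε c c' : ℝ} (h : c' ≤ c) {A : Finset ℤ} (hA : AllD ε c A) : AllD ε c' A := by
  intro D hD
  refine le_trans (mul_le_mul_of_nonneg_right h ?_) (hA D hD)
  exact Real.rpow_nonneg (by positivity) _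

/-- **The sums-alone theorem.** -/
theorem final2 :
    (∀ k : ℕ, ∀ ε δ : ℝ, 0 < ε → 0 < δ → ∃ C c : ℝ, 0 < C ∧ 0 < c ∧
      ∀ A : Finset ℤ, A.Nonempty →
        ((∀ D : Finset ℤ, D.Nonempty → c * ((A.card : ℝ) * D.card) ^ (1 - ε) ≤
            ((Finset.image₂ (fun a d => a + d) A D).card : ℝ)) ∧
          c * (A.card : ℝ) ^ ((k : ℝ) - ε) ≤
            (((Fintype.piFinset (fun _ : Fin k => A)).image
              (fun f : Fin k → ℤ => ∑ i, f i)).card : ℝ)) ∨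
        ((∀ P : Finset ℚ, (∀ s ∈ P, s ≠ 0) → P.Nonempty → P.card ≤ A.card →
            c * A.card * Real.exp (c * Real.log (P.card : ℝ) ^ 2 / Real.log (A.card : ℝ)) ≤
              ((Finset.image₂ (fun (a : ℤ) (s : ℚ) => (a : ℚ) * s) A P).card : ℝ)) ∧
         (∀ P B : Finset ℚ, (∀ s ∈ P, s ≠ 0) → (A.card : ℝ) ^ δ ≤ P.card →
            (B.card : ℝ) ≤ (A.card : ℝ) ^ (1 + c) →
            (((A ×ˢ P).filter (fun q : ℤ × ℚ => (q.1 : ℚ) * q.2 ∈ B)).card : ℝ) <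
              (A.card : ℝ) ^ (1 - c) * P.card) ∧
         (∀ (r : ℕ) (g : Fin r → ℚ), 1 ≤ r → (∀ i, g i ≠ 0) →
            ({a : ℤ | a ∈ A ∧ (1 + C * Real.log (A.card : ℝ) / r) ^ r <
              ({b : ℤ | b ∈ A ∧ ∃ e : Fin r → ℤ, (b : ℚ) = a * ∏ i, g i ^ e i ∨
                (b : ℚ) = -(a * ∏ i, g i ^ e i)}.ncard : ℝ)}.ncard : ℝ) ≤
              (A.card : ℝ) ^ (1 - c)) ∧
         (∀ (S : Finset ℤ) (P : Finset ℕ) (R : ℝ), S ⊆ A →
            (A.card : ℝ) ^ (1 - c) ≤ S.card → (∀ p ∈ P, p.Prime) → C ≤ R →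
            (∀ p ∈ P, R * ((S.filter (fun a : ℤ => (p : ℤ) * a ∉ S)).card : ℝ) ≤ S.card) →
            R * P.card * Real.log (P.card + 1) < C * Real.log (A.card : ℝ)))) ∧
    (∀ η : ℝ, 0 < η → ∃ c : ℝ, 0 < c ∧ ∀ r n : ℕ, 1 ≤ r → 1 ≤ n →
      ∃ (A : Finset ℤ) (p : Fin r → ℕ), (∀ i, (p i).Prime) ∧ Function.Injective p ∧
        (n : ℝ) * r * Real.log (r + 1) ≤ Real.log (A.card : ℝ) ∧
        c * Real.log (A.card : ℝ) ≤ (n : ℝ) * r * Real.log (r + 1) ∧
        (∀ k : ℕ, (((Fintype.piFinset (fun _ : Fin k => A)).image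
          (fun f : Fin k → ℤ => ∑ i, f i)).card : ℝ) ≤
            ((k : ℝ) + 1) * (A.card : ℝ) ^ (1 + η)) ∧
        (∀ i, (n : ℝ) * ((A.filter (fun a : ℤ => (p i : ℤ) * a ∉ A)).card : ℝ) ≤ A.card) ∧
        (∀ a ∈ A, n ^ r ≤ {b : ℤ | b ∈ A ∧ ∃ e : Fin r → ℤ,
          (b : ℚ) = a * ∏ i, (p i : ℚ) ^ e i}.ncard) ∧
        ∀ P : Finset ℚ, P = (Fintype.piFinset (fun _ : Fin r => Finset.Icc (-1 : ℤ) 1)).image
            (fun e => ∏ i, (p i : ℚ) ^ e i) →
          P.card = 3 ^ r ∧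
          n ^ r * (Finset.image₂ (fun (a : ℤ) (s : ℚ) => (a : ℚ) * s) A P).card ≤
            (n + 2) ^ r * A.card) := by
  classical
  refine ⟨?_, final.2⟩
  intro k ε δ hε hδ
  have hk0 : (0 : ℝ) ≤ k := Nat.cast_nonneg k
  have hkk : (0 : ℝ) < (k : ℝ) * (k + 1) + 1 := by positivity
  obtain ⟨ε', hε'⟩ : ∃ ε' : ℝ, ε' = ε / ((k : ℝ) * (k + 1) + 1) := ⟨_, rfl⟩
  have hε'0 : 0 < ε' := by rw [hε']; positivity
  have hε'1 : ε' ≤ ε := by
    rw [hε', div_le_iff₀ hkk]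
    nlinarith [mul_nonneg hε.le (mul_nonneg hk0 (show (0 : ℝ) ≤ k + 1 by linarith))]
  have hε'2 : ε' * (k * (k + 1)) ≤ ε := by
    rw [hε', div_mul_eq_mul_div, div_le_iff₀ hkk]
    nlinarith [mul_nonneg hε.le (mul_nonneg hk0 (show (0 : ℝ) ≤ k + 1 by linarith))]
  obtain ⟨η, hη⟩ : ∃ η : ℝ, η = min ε' 1 := ⟨_, rfl⟩
  have hη0 : 0 < η := by rw [hη]; exact lt_min hε'0 one_pos
  have hηε : η ≤ ε' := by rw [hη]; exact min_le_left _ _
  have hη1 : η ≤ 1 := by rw [hη]; exact min_le_right _ _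
  obtain ⟨cq, hcq, hquant⟩ := grow_quant η (1 / η) hη0 hη1 (by positivity)
  obtain ⟨C, c0, hC, hc0, h⟩ := dichotomy ε' δ hε'0 hδ
  obtain ⟨c', hc'd⟩ : ∃ c' : ℝ, c' = min (min c0 cq) 1 := ⟨_, rfl⟩
  have hc' : 0 < c' := by rw [hc'd]; exact lt_min (lt_min hc0 hcq) one_pos
  have hc'0 : c' ≤ c0 := by rw [hc'd]; exact (min_le_left _ _).trans (min_le_left _ _)
  have hc'q : c' ≤ cq := by rw [hc'd]; exact (min_le_left _ _).trans (min_le_right _ _)
  have hc'1 : c' ≤ 1 := by rw [hc'd]; exact min_le_right _ _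
  obtain ⟨c, hcd⟩ : ∃ c : ℝ, c = min c' (c' ^ k) := ⟨_, rfl⟩
  have hcc0 : 0 < c := by rw [hcd]; exact lt_min hc' (by positivity)
  have hcc' : c ≤ c' := by rw [hcd]; exact min_le_left _ _
  have hcck : c ≤ c' ^ k := by rw [hcd]; exact min_le_right _ _
  refine ⟨C, c, hC, hcc0, fun A hA => ?_⟩
  have hA1 : (1 : ℝ) ≤ A.card := by exact_mod_cast hA.card_pos
  have hA0 : (0 : ℝ) < A.card := by linarith
  by_cases hAll : AllD ε' c' A
  · left
    constructor
    · intro D hD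
      have hD1 : (1 : ℝ) ≤ D.card := by exact_mod_cast hD.card_pos
      have hAD1 : (1 : ℝ) ≤ (A.card : ℝ) * D.card := by nlinarith
      refine le_trans ?_ (hAll D hD)
      refine mul_le_mul hcc' ?_ (by positivity) hc'.le
      exact Real.rpow_le_rpow_of_exponent_le hAD1 (by linarith)
    · have h4 := kS_large ε' c' hε'0.le hc' A hA hAll k
      refine le_trans ?_ h4
      refine mul_le_mul hcck ?_ (by positivity) (by positivity)
      exact Real.rpow_le_rpow_of_exponent_le hA1 (by linarith)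
  · right
    rcases h A hA with h1 | ⟨h1, h2, h3⟩
    · exact absurd (h1.mono hc'0) hAll
    refine ⟨?_, ?_, ?_, ?_⟩
    · intro P hP hPne hPA
      by_contra hcon
      rw [not_le] at hcon
      refine hAll (allD_of_growsB ε' η hη0 hηε hη1 c' hc'.le hc'1 A hA
        (hquant A P hP hPne hPA ?_))
      have h5 : (0 : ℝ) ≤ Real.log (P.card : ℝ) ^ 2 := sq_nonneg _
      have h6 : (0 : ℝ) ≤ Real.log (A.card : ℝ) := Real.log_nonneg hA1
      have h7 : c * Real.log (P.card : ℝ) ^ 2 / Real.log (A.card : ℝ) ≤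
          cq * Real.log (P.card : ℝ) ^ 2 / Real.log (A.card : ℝ) :=
        div_le_div_of_nonneg_right (mul_le_mul_of_nonneg_right (hcc'.trans hc'q) h5) h6
      have h8 : c * A.card ≤ cq * A.card := mul_le_mul_of_nonneg_right (hcc'.trans hc'q) hA0.le
      have h9 : c * A.card * Real.exp (c * Real.log (P.card : ℝ) ^ 2 / Real.log (A.card : ℝ)) ≤
          cq * A.card * Real.exp (cq * Real.log (P.card : ℝ) ^ 2 / Real.log (A.card : ℝ)) :=
        mul_le_mul h8 (Real.exp_le_exp.2 h7) (Real.exp_pos _).le (by positivity)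
      exact lt_of_lt_of_le hcon h9
    · intro P B hP hPc hB
      refine lt_of_lt_of_le (h2 P B hP hPc (hB.trans
        (Real.rpow_le_rpow_of_exponent_le hA1 (by linarith)))) ?_
      exact mul_le_mul_of_nonneg_right (Real.rpow_le_rpow_of_exponent_le hA1 (by linarith))
        (Nat.cast_nonneg _)
    · intro r g hr hg
      exact (h1 r g hr hg).trans (Real.rpow_le_rpow_of_exponent_le hA1 (by linarith))
    · intro S P R hSA hS hP hCR hbad
      exact h3 S P R hSA ((Real.rpow_le_rpow_of_exponent_le hA1 (by linarith)).trans hS) hP hCR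
        hbad

end Pool.Agent.Helper15.GPQ
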