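import Pool.Agent.Helper15.GPP.PopS

set_option autoImplicit false

/-!
# Project GL++ (MP_120218), PopQ: many popular ratios of a set of integers contain a structured set
-/

namespace Pool.Agent.Helper15.GPQ

open Finset Pool.Agent.Helper15.GPP
open scoped Pointwise

open Classical in
/-- a rational number as an element of the additive form of the group of units -/
noncomputable def au (x : ℚ) : Additive ℚˣ :=
  Additive.ofMul (if h : x ≠ 0 then Units.mk0 x h else 1)

/-- the value -/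
def va (g : Additive ℚˣ) : ℚ := ((Additive.toMul g : ℚˣ) : ℚ)

theorem va_au {x : ℚ} (h : x ≠ 0) : va (au x) = x := by
  unfold va au
  rw [dif_pos h]
  rfl

theorem va_ne (g : Additive ℚˣ) : va g ≠ 0 := (Additive.toMul g).ne_zero

theorem va_inj {g h : Additive ℚˣ} (e : va g = va h) : g = h := by
  unfold va at e
  have h1 := Units.ext e
  exact Additive.toMul.injective h1

theorem va_add (g h : Additive ℚˣ) : va (g + h) = va g * va h := rfl

theorem va_sub (g h : Additive ℚˣ) : va (g - h) = va g / va h := by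
  unfold va
  rw [toMul_sub, Units.val_div_eq_div_val]

theorem au_va (g : Additive ℚˣ) : au (va g) = g := va_inj (va_au (va_ne g))

theorem card_abs_le (H : Finset ℚ) : H.card ≤ 2 * (H.image (fun h => |h|)).card := by
  classical
  refine Finset.card_le_mul_card_image H 2 fun t _ => ?_
  have hsub : H.filter (fun h => |h| = t) ⊆ {t, -t} := by
    intro h hh
    have h1 := (Finset.mem_filter.1 hh).2
    rw [Finset.mem_insert, Finset.mem_singleton]
    rcases abs_choice h with h2 | h2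
    · left
      rw [← h1, h2]
    · right
      rw [← h1, h2, neg_neg]
  exact (Finset.card_le_card hsub).trans Finset.card_le_two

/-- the non-zero elements of `A` and `-A` -/
def sym (A : Finset ℤ) : Finset ℤ := (A ∪ A.image (fun a => -a)).erase 0

theorem sym_ne {A : Finset ℤ} {z : ℤ} (hz : z ∈ sym A) : z ≠ 0 := (Finset.mem_erase.1 hz).1

theorem card_sym_le (A : Finset ℤ) : (sym A).card ≤ 2 * A.card := by
  unfold sym
  refine (Finset.card_le_card (Finset.erase_subset _ _)).trans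
    ((Finset.card_union_le _ _).trans ?_)
  have := Finset.card_image_le (s := A) (f := fun a => -a)
  omega

/-- the number of `a ∈ A` with `a s ∈ A` -/
def stay (A : Finset ℤ) (s : ℚ) : Finset ℤ := A.filter (fun a : ℤ => ∃ b ∈ A, (b : ℚ) = a * s)

/-- **Many popular ratios** contain a structured set of popular ratios. -/
theorem pop_rat (κ δ : ℝ) (hκ : 0 < κ) (hκ1 : κ ≤ 1) (hκδ : κ ≤ δ) :
    ∃ θ N0 : ℝ, 0 < θ ∧ 1 ≤ N0 ∧
    ∀ (A : Finset ℤ) (P : Finset ℚ), (∀ s ∈ P, s ≠ 0) → N0 ≤ A.card →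
      (A.card : ℝ) ^ δ ≤ P.card →
      (∀ s ∈ P, (A.card : ℝ) ^ (1 - θ) ≤ ((stay A s).card : ℝ)) →
      ∃ H : Finset ℚ, (∀ h ∈ H, 0 < h) ∧ (A.card : ℝ) ^ (δ - κ) ≤ H.card ∧
        ((Finset.image₂ (fun a b => a * b) H H).card : ℝ) ≤ (A.card : ℝ) ^ κ * H.card ∧
        ((Finset.image₂ (fun a b => a / b) H H).card : ℝ) ≤ (A.card : ℝ) ^ κ * H.card ∧
        ∀ h ∈ H, (A.card : ℝ) ^ (1 - κ) ≤
          (((sym A).filter (fun z : ℤ => ∃ b ∈ A, (b : ℚ) = z * h)).card : ℝ) := by
  classical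
  have hδ : 0 ≤ δ := by linarith
  obtain ⟨θ1, N1, hθ1, hN1, hst⟩ := pop_struct (κ / 2) δ (by positivity) hδ
  obtain ⟨θ2, hθ2⟩ : ∃ θ2 : ℝ, θ2 = min θ1 (1 / 2) := ⟨_, rfl⟩
  have hθ20 : 0 < θ2 := by rw [hθ2]; exact lt_min hθ1 (by norm_num)
  have hθ21 : θ2 ≤ θ1 := by rw [hθ2]; exact min_le_left _ _
  have hθ2h : θ2 ≤ 1 / 2 := by rw [hθ2]; exact min_le_right _ _
  have p1 : (0 : ℝ) < 2 ^ (2 / θ2) := Real.rpow_pos_of_pos (by norm_num) _
  have p2 : (0 : ℝ) < 2 ^ (2 * (δ + 1) / κ) := Real.rpow_pos_of_pos (by norm_num) _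
  refine ⟨θ2 / 2, 2 + 2 * N1 + 2 ^ (2 / θ2) + 2 ^ (2 * (δ + 1) / κ), by positivity,
    by linarith, ?_⟩
  intro A P hP0 hAN hPδ hpop
  obtain ⟨N, hN⟩ : ∃ N : ℝ, N = A.card := ⟨_, rfl⟩
  rw [← hN] at hAN hPδ hpop ⊢
  have hN2 : 2 ≤ N := by linarith
  have hNp : 0 < N := by linarith
  have hN1' : 1 ≤ N := by linarith
  have hNθ : 2 ≤ N ^ (θ2 / 2) := by
    have h1 : (2 : ℝ) ^ (2 / θ2) ≤ N := by linarith
    have h2 := Real.rpow_le_rpow p1.le h1 (show 0 ≤ θ2 / 2 by positivity)
    rw [← Real.rpow_mul (by norm_num)] at h2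
    have h3 : 2 / θ2 * (θ2 / 2) = 1 := by field_simp
    rwa [h3, Real.rpow_one] at h2
  have hNκ : (2 : ℝ) ^ (δ + 1) ≤ N ^ (κ / 2) := by
    have h1 : (2 : ℝ) ^ (2 * (δ + 1) / κ) ≤ N := by linarith
    have h2 := Real.rpow_le_rpow p2.le h1 (show 0 ≤ κ / 2 by positivity)
    rw [← Real.rpow_mul (by norm_num)] at h2
    have h3 : 2 * (δ + 1) / κ * (κ / 2) = δ + 1 := by field_simp
    rwa [h3] at h2
  have hNκ2 : 2 ≤ N ^ (κ / 2) := by
    refine le_trans ?_ hNκ
    calc (2 : ℝ) = 2 ^ (1 : ℝ) := (Real.rpow_one 2).symm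
      _ ≤ 2 ^ (δ + 1) := Real.rpow_le_rpow_of_exponent_le (by norm_num) (by linarith)
  obtain ⟨A1, hA1⟩ : ∃ A1 : Finset ℤ, A1 = A.erase 0 := ⟨_, rfl⟩
  have hA10' : ∀ a ∈ A1, a ≠ 0 := by
    intro a ha
    rw [hA1, Finset.mem_erase] at ha
    exact ha.1
  have hA10 : ∀ a ∈ A1, (a : ℚ) ≠ 0 := fun a ha => by exact_mod_cast hA10' a ha
  have hA1A : A1 ⊆ A := by rw [hA1]; exact Finset.erase_subset _ _
  have hA1m : ∀ a ∈ A, a ≠ 0 → a ∈ A1 := by
    intro a ha h0
    rw [hA1, Finset.mem_erase]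
    exact ⟨h0, ha⟩
  obtain ⟨n, hn⟩ : ∃ n : ℝ, n = A1.card := ⟨_, rfl⟩
  have hn2 : N / 2 ≤ n := by
    have h1 := Finset.pred_card_le_card_erase (s := A) (a := (0 : ℤ))
    rw [← hA1] at h1
    have h2 : (A.card : ℝ) ≤ A1.card + 1 := by
      have : A.card ≤ A1.card + 1 := by omega
      exact_mod_cast this
    rw [hn]
    linarith
  have hnN : n ≤ N := by
    rw [hN, hn]
    exact_mod_cast Finset.card_le_card hA1A
  have hn1 : 1 ≤ n := by linarith
  have hnp : 0 < n := by linarith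
  have hhalf : ∀ x : ℝ, 0 ≤ x → N ^ x ≤ 2 ^ x * n ^ x := by
    intro x hx
    rw [← Real.mul_rpow (by norm_num) hnp.le]
    exact Real.rpow_le_rpow hNp.le (by linarith) hx
  obtain ⟨Au, hAu⟩ : ∃ Au : Finset (Additive ℚˣ), Au = A1.image (fun a : ℤ => au (a : ℚ)) :=
    ⟨_, rfl⟩
  have hAuc : Au.card = A1.card := by
    rw [hAu, Finset.card_image_of_injOn]
    intro a ha b hb h
    have h1 := congrArg va h
    simp only at h1
    rw [va_au (hA10 a (Finset.mem_coe.1 ha)), va_au (hA10 b (Finset.mem_coe.1 hb))] at h1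
    exact_mod_cast h1
  have memAu : ∀ g, g ∈ Au ↔ ∃ a ∈ A1, va g = a := by
    intro g
    rw [hAu, Finset.mem_image]
    constructor
    · rintro ⟨a, ha, rfl⟩
      exact ⟨a, ha, va_au (hA10 a ha)⟩
    · rintro ⟨a, ha, h⟩
      refine ⟨a, ha, ?_⟩
      rw [← h, au_va]
  obtain ⟨Pu, hPu⟩ : ∃ Pu : Finset (Additive ℚˣ), Pu = P.image au := ⟨_, rfl⟩
  have hPuc : Pu.card = P.card := by
    rw [hPu, Finset.card_image_of_injOn]
    intro a ha b hb h
    have h1 := congrArg va h
    rwa [va_au (hP0 a (Finset.mem_coe.1 ha)), va_au (hP0 b (Finset.mem_coe.1 hb))] at h1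
  obtain ⟨Hu, hHu1, hHu2, hHu3, hHu4, hHu5⟩ := hst (Additive ℚˣ) Au Pu (by
      rw [hAuc, ← hn]
      linarith) (by
      rw [hAuc, ← hn, hPuc]
      exact (Real.rpow_le_rpow hnp.le hnN hδ).trans hPδ) (by
      intro g hg
      rw [hPu, Finset.mem_image] at hg
      obtain ⟨s, hs, rfl⟩ := hg
      rw [hAuc, ← hn]
      have h1 := hpop s hs
      have h2 : (stay A s).card ≤ (cor Au (au s)).card + 1 := by
        have h3 : (stay A s).card ≤ ((stay A s).erase 0).card + 1 := by
          have := Finset.pred_card_le_card_erase (s := stay A s) (a := (0 : ℤ))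
          omega
        have h4 : ((stay A s).erase 0).card ≤ (cor Au (au s)).card := by
          refine Finset.card_le_card_of_injOn (fun a : ℤ => au (a : ℚ)) ?_ ?_
          · intro a ha
            have h5 := Finset.mem_erase.1 (Finset.mem_coe.1 ha)
            obtain ⟨h6, b, hb, h7⟩ := Finset.mem_filter.1 h5.2
            have h8 : (a : ℚ) ≠ 0 := by exact_mod_cast h5.1
            refine Finset.mem_coe.2 (mem_cor.2 ⟨(memAu _).2 ⟨a, hA1m a h6 h5.1, va_au h8⟩,
              (memAu _).2 ⟨b, hA1m b hb ?_, ?_⟩⟩)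
            · intro h9
              rw [h9] at h7
              have h10 : (a : ℚ) * s ≠ 0 := mul_ne_zero h8 (hP0 s hs)
              exact h10 (by rw [← h7]; norm_num)
            · show va (au (a : ℚ) + au s) = b
              rw [va_add, va_au h8, va_au (hP0 s hs), h7]
          · intro a ha b hb h
            have h5 := Finset.mem_erase.1 (Finset.mem_coe.1 ha)
            have h6 := Finset.mem_erase.1 (Finset.mem_coe.1 hb)
            have h8 : (a : ℚ) ≠ 0 := by exact_mod_cast h5.1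
            have h9 : (b : ℚ) ≠ 0 := by exact_mod_cast h6.1
            have h1 := congrArg va h
            simp only at h1
            rw [va_au h8, va_au h9] at h1
            exact_mod_cast h1
        omega
      have h2R : ((stay A s).card : ℝ) ≤ (cor Au (au s)).card + 1 := by exact_mod_cast h2
      have h3 : N ^ (1 - θ2 / 2) = N ^ (θ2 / 2) * N ^ (1 - θ2) := by
        rw [← Real.rpow_add hNp]
        congr 1
        ring
      have h4 : 1 ≤ N ^ (1 - θ2) := Real.one_le_rpow hN1' (by linarith)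
      have h5 : 2 * N ^ (1 - θ2) ≤ N ^ (θ2 / 2) * N ^ (1 - θ2) :=
        mul_le_mul_of_nonneg_right hNθ (by linarith)
      have h6 : n ^ (1 - θ1) ≤ N ^ (1 - θ2) :=
        (Real.rpow_le_rpow_of_exponent_le hn1 (by linarith)).trans
          (Real.rpow_le_rpow hnp.le hnN (by linarith))
      rw [h3] at h1
      linarith)
  rw [hAuc, ← hn] at hHu2 hHu3 hHu4 hHu5
  obtain ⟨H0, hH0⟩ : ∃ H0 : Finset ℚ, H0 = Hu.image va := ⟨_, rfl⟩
  have hH0c : H0.card = Hu.card := by
    rw [hH0]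
    exact Finset.card_image_of_injective _ fun _ _ h => va_inj h
  obtain ⟨H, hH⟩ : ∃ H : Finset ℚ, H = H0.image (fun h : ℚ => |h|) := ⟨_, rfl⟩
  have hH2 : (Hu.card : ℝ) ≤ 2 * H.card := by
    rw [← hH0c, hH]
    exact_mod_cast card_abs_le H0
  have memH : ∀ h, h ∈ H ↔ ∃ g ∈ Hu, |va g| = h := by
    intro h
    rw [hH, hH0, Finset.mem_image]
    constructor
    · rintro ⟨x, hx, rfl⟩
      obtain ⟨g, hg, rfl⟩ := Finset.mem_image.1 hx
      exact ⟨g, hg, rfl⟩
    · rintro ⟨g, hg, rfl⟩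
      exact ⟨va g, Finset.mem_image_of_mem _ hg, rfl⟩
  have hH0' : (0 : ℝ) ≤ H.card := Nat.cast_nonneg _
  have hκn : n ^ (κ / 2) * 2 ≤ N ^ κ := by
    calc n ^ (κ / 2) * 2 ≤ N ^ (κ / 2) * N ^ (κ / 2) :=
          mul_le_mul (Real.rpow_le_rpow hnp.le hnN (by positivity)) hNκ2 (by norm_num)
            (Real.rpow_nonneg hNp.le _)
      _ = N ^ κ := by
          rw [← Real.rpow_add hNp]
          congr 1
          ring
  have hdbl : ∀ c : ℝ, c ≤ n ^ (κ / 2) * Hu.card → c ≤ N ^ κ * H.card := by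
    intro c hc
    calc c ≤ n ^ (κ / 2) * Hu.card := hc
      _ ≤ n ^ (κ / 2) * (2 * H.card) :=
          mul_le_mul_of_nonneg_left hH2 (Real.rpow_nonneg hnp.le _)
      _ = (n ^ (κ / 2) * 2) * H.card := by ring
      _ ≤ N ^ κ * H.card := mul_le_mul_of_nonneg_right hκn hH0'
  refine ⟨H, ?_, ?_, ?_, ?_, ?_⟩
  · intro h hh
    obtain ⟨g, _, rfl⟩ := (memH h).1 hh
    exact abs_pos.2 (va_ne g)
  · have h1 := hhalf (δ - κ / 2) (by linarith)
    have h2 : (2 : ℝ) ^ (δ - κ / 2) ≤ 2 ^ δ :=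
      Real.rpow_le_rpow_of_exponent_le (by norm_num) (by linarith)
    have h3 : N ^ (δ - κ / 2) ≤ 2 ^ δ * (2 * H.card) := by
      refine h1.trans (mul_le_mul h2 (hHu2.trans hH2) (Real.rpow_nonneg hnp.le _) (by positivity))
    have h4 : (2 : ℝ) ^ δ * (2 * H.card) = 2 ^ (δ + 1) * H.card := by
      rw [Real.rpow_add (by norm_num), Real.rpow_one]
      ring
    rw [h4] at h3
    have h5 : N ^ (δ - κ / 2) ≤ N ^ (κ / 2) * H.card :=
      h3.trans (mul_le_mul_of_nonneg_right hNκ hH0')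
    have h6 : N ^ (δ - κ / 2) = N ^ (κ / 2) * N ^ (δ - κ) := by
      rw [← Real.rpow_add hNp]
      congr 1
      ring
    rw [h6] at h5
    exact le_of_mul_le_mul_left h5 (Real.rpow_pos_of_pos hNp _)
  · refine hdbl _ (le_trans ?_ hHu4)
    have h1 : (Finset.image₂ (fun a b => a * b) H H).card ≤ (Hu + Hu).card := by
      have h2 : Finset.image₂ (fun a b => a * b) H H ⊆ (Hu + Hu).image (fun g => |va g|) := by
        intro z hz
        obtain ⟨a, ha, b, hb, rfl⟩ := Finset.mem_image₂.1 hz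
        obtain ⟨g, hg, rfl⟩ := (memH a).1 ha
        obtain ⟨g', hg', rfl⟩ := (memH b).1 hb
        refine Finset.mem_image.2 ⟨g + g', Finset.add_mem_add hg hg', ?_⟩
        rw [va_add, abs_mul]
      exact (Finset.card_le_card h2).trans Finset.card_image_le
    exact_mod_cast h1
  · refine hdbl _ (le_trans ?_ hHu3)
    have h1 : (Finset.image₂ (fun a b => a / b) H H).card ≤ (Hu - Hu).card := by
      have h2 : Finset.image₂ (fun a b => a / b) H H ⊆ (Hu - Hu).image (fun g => |va g|) := by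
        intro z hz
        obtain ⟨a, ha, b, hb, rfl⟩ := Finset.mem_image₂.1 hz
        obtain ⟨g, hg, rfl⟩ := (memH a).1 ha
        obtain ⟨g', hg', rfl⟩ := (memH b).1 hb
        refine Finset.mem_image.2 ⟨g - g', Finset.sub_mem_sub hg hg', ?_⟩
        rw [va_sub, abs_div]
      exact (Finset.card_le_card h2).trans Finset.card_image_le
    exact_mod_cast h1
  · intro h hh
    obtain ⟨g, hg, rfl⟩ := (memH h).1 hh
    have h1 := hHu5 g hg
    have h2 : (cor Au g).card ≤
        ((sym A).filter (fun z : ℤ => ∃ b ∈ A, (b : ℚ) = z * |va g|)).card := by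
      refine Finset.card_le_card_of_injOn
        (fun x => if 0 < va g then (va x).num else -(va x).num) ?_ ?_
      · intro x hx
        obtain ⟨h3, h4⟩ := mem_cor.1 (Finset.mem_coe.1 hx)
        obtain ⟨a, ha, h5⟩ := (memAu x).1 h3
        obtain ⟨b, hb, h6⟩ := (memAu _).1 h4
        rw [va_add, h5] at h6
        simp only
        rw [h5, Rat.num_intCast]
        by_cases h7 : 0 < va g
        · rw [if_pos h7]
          refine Finset.mem_coe.2 (Finset.mem_filter.2 ⟨?_, b, hA1A hb, ?_⟩)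
          · unfold sym
            rw [Finset.mem_erase]
            exact ⟨hA10' a ha, Finset.mem_union_left _ (hA1A ha)⟩
          · rw [abs_of_pos h7, h6]
        · rw [if_neg h7]
          refine Finset.mem_coe.2 (Finset.mem_filter.2 ⟨?_, b, hA1A hb, ?_⟩)
          · unfold sym
            rw [Finset.mem_erase]
            refine ⟨neg_ne_zero.2 (hA10' a ha), Finset.mem_union_right _ ?_⟩
            exact Finset.mem_image_of_mem _ (hA1A ha)
          · rw [abs_of_nonpos (not_lt.1 h7), ← h6]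
            push_cast
            ring
      · intro x hx y hy h3
        obtain ⟨h4, _⟩ := mem_cor.1 (Finset.mem_coe.1 hx)
        obtain ⟨h5, _⟩ := mem_cor.1 (Finset.mem_coe.1 hy)
        obtain ⟨a, _, h6⟩ := (memAu x).1 h4
        obtain ⟨b, _, h7⟩ := (memAu y).1 h5
        simp only at h3
        rw [h6, h7, Rat.num_intCast, Rat.num_intCast] at h3
        apply va_inj
        rw [h6, h7]
        by_cases h8 : 0 < va g
        · rw [if_pos h8, if_pos h8] at h3
          rw [h3]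
        · rw [if_neg h8, if_neg h8] at h3
          rw [neg_inj.1 h3]
    have h3 : ((cor Au g).card : ℝ) ≤
        (((sym A).filter (fun z : ℤ => ∃ b ∈ A, (b : ℚ) = z * |va g|)).card : ℝ) := by
      exact_mod_cast h2
    refine le_trans ?_ (h1.trans h3)
    have h4 := hhalf (1 - κ / 2) (by linarith)
    have h5 : (2 : ℝ) ^ (1 - κ / 2) ≤ N ^ (κ / 2) := by
      refine le_trans ?_ hNκ2
      calc (2 : ℝ) ^ (1 - κ / 2) ≤ 2 ^ (1 : ℝ) :=
            Real.rpow_le_rpow_of_exponent_le (by norm_num) (by linarith)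
        _ = 2 := Real.rpow_one 2
    have h6 : N ^ (1 - κ / 2) ≤ N ^ (κ / 2) * n ^ (1 - κ / 2) :=
      h4.trans (mul_le_mul_of_nonneg_right h5 (Real.rpow_nonneg hnp.le _))
    have h7 : N ^ (1 - κ / 2) = N ^ (κ / 2) * N ^ (1 - κ) := by
      rw [← Real.rpow_add hNp]
      congr 1
      ring
    rw [h7] at h6
    exact le_of_mul_le_mul_left h6 (Real.rpow_pos_of_pos hNp _)

end Pool.Agent.Helper15.GPQ
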