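import Pool.Agent.Helper15.GPP.Tree
import Pool.Agent.Helper15.GPQ.PopQ
import Pool.Agent.Helper15.GPQ.GrowS

set_option autoImplicit false

/-!
# Project GL++ (MP_120218), Free: a set with many popular ratios has maximal sumsets
-/

namespace Pool.Agent.Helper15.GPQ

open Finset Pool.Agent.Helper15.GPP

/-- the counting step -/
theorem count_rich (A : Finset ℤ) (H Q D : Finset ℚ) (hQH : Q ⊆ H) (hpos : ∀ h ∈ H, 0 < h)
    (hD : D = Finset.image₂ (fun a b => a / b) H H) (u M W : ℝ) (hM : 0 ≤ M)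
    (hu : ∀ h ∈ H, u ≤ (((sym A).filter (fun z : ℤ => ∃ b ∈ A, (b : ℚ) = z * h)).card : ℝ))
    (hW : ∀ Z : Finset ℚ, (∀ z ∈ Z, M < ((rich A Q z).card : ℝ)) → (Z.card : ℝ) ≤ W) :
    H.card * u * Q.card ≤ D.card * (2 * M * A.card + Q.card * W) := by
  classical
  obtain ⟨V, hV⟩ : ∃ V : Finset (ℤ × ℚ), V = (sym A ×ˢ H).filter
    (fun q : ℤ × ℚ => ∃ b ∈ A, (b : ℚ) = q.1 * q.2) := ⟨_, rfl⟩
  have memV : ∀ q : ℤ × ℚ, q ∈ V ↔ (q.1 ∈ sym A ∧ q.2 ∈ H) ∧ ∃ b ∈ A, (b : ℚ) = q.1 * q.2 := by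
    intro q
    rw [hV, Finset.mem_filter, Finset.mem_product]
  have hVc : H.card * u ≤ V.card := by
    have h1 : (V.card : ℝ) = ∑ h ∈ H,
        (((sym A).filter (fun z : ℤ => ∃ b ∈ A, (b : ℚ) = z * h)).card : ℝ) := by
      rw [hV, Finset.card_filter]
      push_cast
      rw [Finset.sum_product_right]
      refine Finset.sum_congr rfl fun h _ => ?_
      rw [Finset.card_filter]
      push_cast
      rfl
    rw [h1]
    calc H.card * u = ∑ h ∈ H, u := by rw [Finset.sum_const, nsmul_eq_mul]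
      _ ≤ _ := Finset.sum_le_sum hu
  have hDpos : ∀ d ∈ D, 0 < d := by
    intro d hd
    rw [hD] at hd
    obtain ⟨a, ha, b, hb, rfl⟩ := Finset.mem_image₂.1 hd
    exact div_pos (hpos a ha) (hpos b hb)
  have hVQ : (V ×ˢ Q).card ≤ ∑ x ∈ sym A ×ˢ D, (rich A Q ((x.1 : ℚ) * x.2)).card := by
    rw [← Finset.card_sigma]
    refine Finset.card_le_card_of_injOn
      (fun y : (ℤ × ℚ) × ℚ => (⟨(y.1.1, y.1.2 / y.2), ((y.1.1 : ℚ) * y.1.2).num⟩ :
        (_ : ℤ × ℚ) × ℤ)) ?_ ?_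
    · rintro ⟨⟨z, h⟩, q⟩ hy
      have h1 := Finset.mem_product.1 (Finset.mem_coe.1 hy)
      obtain ⟨⟨h2, h3⟩, b, hb, h4⟩ := (memV _).1 h1.1
      have h5 : q ∈ Q := h1.2
      have hq := hpos q (hQH h5)
      simp only at h2 h3 h4
      refine Finset.mem_coe.2 (Finset.mem_sigma.2 ⟨Finset.mem_product.2 ⟨h2, ?_⟩, ?_⟩)
      · rw [hD]
        exact Finset.mem_image₂_of_mem h3 (hQH h5)
      · show ((z : ℚ) * h).num ∈ rich A Q ((z : ℚ) * (h / q))
        rw [← h4, Rat.num_intCast, mem_rich]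
        refine ⟨hb, q, h5, ?_⟩
        rw [h4]
        field_simp
    · rintro ⟨⟨z, h⟩, q⟩ hy ⟨⟨z', h'⟩, q'⟩ hy' e
      have h1 := Finset.mem_product.1 (Finset.mem_coe.1 hy)
      obtain ⟨⟨h2, h3⟩, b, hb, h4⟩ := (memV _).1 h1.1
      have h1' := Finset.mem_product.1 (Finset.mem_coe.1 hy')
      obtain ⟨⟨h2', h3'⟩, b', hb', h4'⟩ := (memV _).1 h1'.1
      have h5 : q ∈ Q := h1.2
      have h5' : q' ∈ Q := h1'.2
      have hq := hpos q (hQH h5)
      have hq' := hpos q' (hQH h5')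
      simp only at h2 h3 h4 h2' h3' h4'
      have e1 := Sigma.mk.inj e
      have e2 := Prod.mk.inj e1.1
      have e3 : ((z : ℚ) * h).num = ((z' : ℚ) * h').num := eq_of_heq e1.2
      obtain ⟨e4, e5⟩ := e2
      simp only at e4 e5
      rw [← h4, ← h4', Rat.num_intCast, Rat.num_intCast] at e3
      rw [e3, h4', ← e4] at h4
      have hz : (z : ℚ) ≠ 0 := by exact_mod_cast sym_ne h2
      have e6 := mul_left_cancel₀ hz h4
      rw [e6] at e5
      have hh := hpos h h3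
      have e7 : q = q' := by
        rw [div_eq_div_iff hq.ne' hq'.ne'] at e5
        exact (mul_left_cancel₀ hh.ne' e5).symm
      rw [← e4, e6, e7]
  -- rich pairs
  obtain ⟨Pr, hPr⟩ : ∃ Pr : Finset (ℤ × ℚ), Pr = (sym A ×ˢ D).filter
    (fun x : ℤ × ℚ => M < ((rich A Q ((x.1 : ℚ) * x.2)).card : ℝ)) := ⟨_, rfl⟩
  have hPrc : (Pr.card : ℝ) ≤ W * D.card := by
    obtain ⟨Z, hZ⟩ : ∃ Z : Finset ℚ, Z = Pr.image (fun x : ℤ × ℚ => (x.1 : ℚ) * x.2) := ⟨_, rfl⟩
    have h1 : Pr.card ≤ (Z ×ˢ D).card := by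
      refine Finset.card_le_card_of_injOn (fun x : ℤ × ℚ => ((x.1 : ℚ) * x.2, x.2)) ?_ ?_
      · intro x hx
        have h2 := Finset.mem_coe.1 hx
        have h3 : x ∈ sym A ×ˢ D := by
          rw [hPr] at h2
          exact (Finset.mem_filter.1 h2).1
        refine Finset.mem_coe.2 (Finset.mem_product.2 ⟨?_, (Finset.mem_product.1 h3).2⟩)
        rw [hZ]
        exact Finset.mem_image_of_mem _ h2
      · rintro ⟨z, d⟩ hx ⟨z', d'⟩ hx' e
        have h2 := Finset.mem_coe.1 hx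
        have h3 : (z, d) ∈ sym A ×ˢ D := by
          rw [hPr] at h2
          exact (Finset.mem_filter.1 h2).1
        have h4 := hDpos d (Finset.mem_product.1 h3).2
        obtain ⟨e1, e2⟩ := Prod.mk.inj e
        simp only at e1 e2
        rw [← e2] at e1
        have e3 := mul_right_cancel₀ h4.ne' e1
        have e4 : z = z' := by exact_mod_cast e3
        rw [e4, e2]
    have h2 : (Z.card : ℝ) ≤ W := by
      refine hW Z fun z hz => ?_
      rw [hZ] at hz
      obtain ⟨x, hx, rfl⟩ := Finset.mem_image.1 hz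
      rw [hPr] at hx
      exact (Finset.mem_filter.1 hx).2
    rw [Finset.card_product] at h1
    have h3 : (Pr.card : ℝ) ≤ Z.card * D.card := by exact_mod_cast h1
    exact h3.trans (mul_le_mul_of_nonneg_right h2 (Nat.cast_nonneg _))
  have hsum : (∑ x ∈ sym A ×ˢ D, ((rich A Q ((x.1 : ℚ) * x.2)).card : ℝ)) ≤
      (2 * A.card) * D.card * M + Q.card * (W * D.card) := by
    calc (∑ x ∈ sym A ×ˢ D, ((rich A Q ((x.1 : ℚ) * x.2)).card : ℝ)) ≤
          ∑ x ∈ sym A ×ˢ D, (M + if M < ((rich A Q ((x.1 : ℚ) * x.2)).card : ℝ) then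
            (Q.card : ℝ) else 0) := by
          refine Finset.sum_le_sum fun x _ => ?_
          by_cases h1 : M < ((rich A Q ((x.1 : ℚ) * x.2)).card : ℝ)
          · rw [if_pos h1]
            have h2 : ((rich A Q ((x.1 : ℚ) * x.2)).card : ℝ) ≤ Q.card := by
              exact_mod_cast rich_le A Q _
            linarith
          · rw [if_neg h1, add_zero]
            exact not_lt.1 h1
      _ = (sym A).card * D.card * M + Q.card * Pr.card := by
          rw [Finset.sum_add_distrib, Finset.sum_const, Finset.card_product, nsmul_eq_mul,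
            Finset.sum_ite, Finset.sum_const_zero, add_zero, Finset.sum_const, nsmul_eq_mul, hPr]
          push_cast
          ring
      _ ≤ _ := by
          have h1 : ((sym A).card : ℝ) ≤ 2 * A.card := by exact_mod_cast card_sym_le A
          refine add_le_add ?_ (mul_le_mul_of_nonneg_left hPrc (Nat.cast_nonneg _))
          exact mul_le_mul_of_nonneg_right (mul_le_mul_of_nonneg_right h1 (Nat.cast_nonneg _)) hM
  have hVQ' : ((V ×ˢ Q).card : ℝ) ≤ ∑ x ∈ sym A ×ˢ D, ((rich A Q ((x.1 : ℚ) * x.2)).card : ℝ) := by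
    exact_mod_cast hVQ
  rw [Finset.card_product] at hVQ'
  push_cast at hVQ'
  calc H.card * u * Q.card ≤ V.card * Q.card :=
        mul_le_mul_of_nonneg_right hVc (Nat.cast_nonneg _)
    _ ≤ _ := hVQ'.trans hsum
    _ = _ := by ring

/-- **Many popular ratios** force maximal sumsets. -/
theorem grow_pop (η B δ : ℝ) (hη : 0 < η) (hη1 : η ≤ 1) (hB : 0 ≤ B) (hδ : 0 < δ) :
    ∃ θ N0 : ℝ, 0 < θ ∧ 1 ≤ N0 ∧ ∀ (A : Finset ℤ) (P : Finset ℚ), (∀ s ∈ P, s ≠ 0) →
      N0 ≤ A.card → (A.card : ℝ) ^ δ ≤ P.card →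
      (∀ s ∈ P, (A.card : ℝ) ^ (1 - θ) ≤ ((stay A s).card : ℝ)) → GrowsB η B A := by
  classical
  obtain ⟨C2, c2, N2, hC2, hc2, hc21, hN2, hgrow⟩ := grow_sepU η B hη hη1 hB
  -- constants
  obtain ⟨δ', hδ'⟩ : ∃ δ' : ℝ, δ' = min δ 1 := ⟨_, rfl⟩
  have hδ'0 : 0 < δ' := by rw [hδ']; exact lt_min hδ one_pos
  have hδ'δ : δ' ≤ δ := by rw [hδ']; exact min_le_left _ _
  have hδ'1 : δ' ≤ 1 := by rw [hδ']; exact min_le_right _ _
  obtain ⟨c', hc'⟩ : ∃ c' : ℝ, c' = min (δ' / 4) (c2 / 2) := ⟨_, rfl⟩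
  have hc'0 : 0 < c' := by rw [hc']; exact lt_min (by positivity) (by positivity)
  have hc'δ : c' ≤ δ' / 4 := by rw [hc']; exact min_le_left _ _
  have hc'c : c' ≤ c2 / 2 := by rw [hc']; exact min_le_right _ _
  obtain ⟨l, hl⟩ : ∃ l : ℝ, l = min 1 (c' / (16 * C2)) := ⟨_, rfl⟩
  have hl0 : 0 < l := by rw [hl]; exact lt_min one_pos (by positivity)
  have hl1 : l ≤ 1 := by rw [hl]; exact min_le_left _ _
  have hlC : l * C2 ≤ c' / 16 := by
    have h1 : l ≤ c' / (16 * C2) := by rw [hl]; exact min_le_right _ _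
    calc l * C2 ≤ c' / (16 * C2) * C2 := mul_le_mul_of_nonneg_right h1 hC2.le
      _ = c' / 16 := by field_simp
  have hlog : 0 ≤ Real.log (1 / l) := by
    apply Real.log_nonneg
    rw [le_div_iff₀ hl0]
    linarith
  obtain ⟨κ, hκ⟩ : ∃ κ : ℝ, κ = min (c' / 8) (min (c2 / 6) (c' / (48 * (1 + Real.log (1 / l))))) :=
    ⟨_, rfl⟩
  have hκ0 : 0 < κ := by
    rw [hκ]
    exact lt_min (by positivity) (lt_min (by positivity) (by positivity))
  have hκ1 : κ ≤ c' / 8 := by rw [hκ]; exact min_le_left _ _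
  have hκ2 : κ ≤ c2 / 6 := by
    rw [hκ]
    exact (min_le_right _ _).trans (min_le_left _ _)
  have hκ3 : 3 * κ * Real.log (1 / l) ≤ c' / 16 := by
    have h1 : κ ≤ c' / (48 * (1 + Real.log (1 / l))) := by
      rw [hκ]
      exact (min_le_right _ _).trans (min_le_right _ _)
    calc 3 * κ * Real.log (1 / l) ≤ 3 * κ * (1 + Real.log (1 / l)) :=
          mul_le_mul_of_nonneg_left (by linarith) (by positivity)
      _ ≤ 3 * (c' / (48 * (1 + Real.log (1 / l)))) * (1 + Real.log (1 / l)) := by gcongr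
      _ = c' / 16 := by
          field_simp
          ring
  obtain ⟨θ, N1, hθ, hN1, hst⟩ := pop_rat κ δ' hκ0 (by linarith) (by linarith)
  have hl2 : 0 < Real.log 2 := Real.log_pos (by norm_num)
  obtain ⟨L0, hL0⟩ : ∃ L0 : ℝ, L0 = 1 / κ + 8 * Real.log 2 / δ' + 8 * Real.log 2 / c' +
      2 * Real.log 2 / c2 + 1 := ⟨_, rfl⟩
  refine ⟨θ, N1 + N2 + Real.exp L0, hθ, ?_, ?_⟩
  · have := Real.exp_pos L0
    linarith
  intro A P hP0 hAN hPδ hpop
  have hexpL := Real.exp_pos L0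
  obtain ⟨N, hN⟩ : ∃ N : ℝ, N = A.card := ⟨_, rfl⟩
  have hAN1 : N1 ≤ N := by linarith
  have hA1 : 1 ≤ N := hN1.trans hAN1
  have hA0 : 0 < N := by linarith
  obtain ⟨L, hL⟩ : ∃ L : ℝ, L = Real.log N := ⟨_, rfl⟩
  have hLL0 : L0 ≤ L := by
    rw [hL, Real.le_log_iff_exp_le hA0]
    linarith
  have q1 : 0 < 1 / κ := by positivity
  have q2 : 0 < 8 * Real.log 2 / δ' := by positivity
  have q3 : 0 < 8 * Real.log 2 / c' := by positivity
  have q4 : 0 < 2 * Real.log 2 / c2 := by positivity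
  have w1 : 1 ≤ κ * L := by
    have h1 : 1 / κ ≤ L := by linarith
    rw [div_le_iff₀ hκ0] at h1
    linarith
  have w2 : 8 * Real.log 2 ≤ δ' * L := by
    have h1 : 8 * Real.log 2 / δ' ≤ L := by linarith
    rw [div_le_iff₀ hδ'0] at h1
    linarith
  have w3 : 8 * Real.log 2 ≤ c' * L := by
    have h1 : 8 * Real.log 2 / c' ≤ L := by linarith
    rw [div_le_iff₀ hc'0] at h1
    linarith
  have w4 : 2 * Real.log 2 ≤ c2 * L := by
    have h1 : 2 * Real.log 2 / c2 ≤ L := by linarith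
    rw [div_le_iff₀ hc2] at h1
    linarith
  have hLp : 0 < L := by linarith
  have hpow : ∀ x : ℝ, N ^ x = Real.exp (x * L) := by
    intro x
    rw [Real.rpow_def_of_pos hA0, hL, mul_comm]
  have hpow2 : ∀ (j : ℕ) (x : ℝ), j * Real.log 2 ≤ x * L → (2 : ℝ) ^ j ≤ N ^ x := by
    intro j x h
    rw [hpow, ← Real.exp_log (show (0 : ℝ) < 2 ^ j by positivity), Real.log_pow]
    exact Real.exp_le_exp.2 h
  obtain ⟨H, hHpos, hHc, hHH, hHD, hHs⟩ := hst A P hP0 (by rw [← hN]; exact hAN1) (by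
    rw [← hN] at hPδ ⊢
    exact (Real.rpow_le_rpow_of_exponent_le hA1 hδ'δ).trans hPδ) hpop
  rw [← hN] at hHc hHH hHD hHs
  by_contra hG
  -- the number `T`
  obtain ⟨T, hT⟩ : ∃ T : ℕ, T = ⌊N ^ c'⌋₊ := ⟨_, rfl⟩
  have hTc : (T : ℝ) ≤ N ^ c' := by
    rw [hT]
    exact Nat.floor_le (Real.rpow_nonneg hA0.le _)
  have h256 : (256 : ℝ) ≤ N ^ c' := by
    have := hpow2 8 c' (by push_cast; linarith)
    norm_num at this
    exact this
  have hTge : N ^ c' / 2 ≤ T := by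
    have h1 := Nat.lt_floor_add_one (N ^ c')
    rw [← hT] at h1
    linarith
  have hT1 : 1 ≤ T := by
    have h1 : (1 : ℝ) ≤ T := by linarith
    exact_mod_cast h1
  have hHne : H.Nonempty := by
    rw [← Finset.card_pos]
    have h2 : (0 : ℝ) < H.card := lt_of_lt_of_le (Real.rpow_pos_of_pos hA0 _) hHc
    exact_mod_cast h2
  have hHp : (0 : ℝ) < H.card := by exact_mod_cast hHne.card_pos
  have hTH : 4 * N ^ κ * (T : ℝ) ^ 2 ≤ H.card := by
    have h1 : (T : ℝ) ^ 2 ≤ (N ^ c') ^ 2 := pow_le_pow_left₀ (Nat.cast_nonneg _) hTc 2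
    have h2 : 4 * (N ^ κ * (N ^ c') ^ 2) ≤ N ^ (δ' - κ) := by
      have h3 := hpow2 2 (δ' / 4) (by push_cast; linarith)
      have h4 : N ^ κ * (N ^ c') ^ 2 = N ^ (κ + 2 * c') := by
        rw [← Real.rpow_natCast (N ^ c'), ← Real.rpow_mul hA0.le, ← Real.rpow_add hA0]
        congr 1
        push_cast
        ring
      rw [h4]
      calc 4 * N ^ (κ + 2 * c') ≤ N ^ (δ' / 4) * N ^ (κ + 2 * c') := by
            refine mul_le_mul_of_nonneg_right ?_ (Real.rpow_nonneg hA0.le _)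
            linarith
        _ = N ^ (δ' / 4 + (κ + 2 * c')) := (Real.rpow_add hA0 _ _).symm
        _ ≤ N ^ (δ' - κ) := Real.rpow_le_rpow_of_exponent_le hA1 (by linarith)
    have h3 : N ^ κ * (T : ℝ) ^ 2 ≤ N ^ κ * (N ^ c') ^ 2 :=
      mul_le_mul_of_nonneg_left h1 (Real.rpow_nonneg hA0.le _)
    linarith
  obtain ⟨r, pr, Q, hQH, hprime, hr2, hQT, hTQ, hsep⟩ :=
    sub_tree H hHne hHpos (N ^ κ) hHH T hT1 hTH
  have hTQR : (T : ℝ) < 2 * Q.card := by exact_mod_cast hTQ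
  have hQTR : (Q.card : ℝ) ≤ T := by exact_mod_cast hQT
  have hQpos : ∀ s ∈ Q, 0 < s := fun s hs => hHpos s (hQH hs)
  have hr1 : 1 ≤ r := by
    by_contra hcon
    have hr0 : r = 0 := by omega
    subst hr0
    have h1 : Q.card ≤ 1 := Finset.card_le_one.2 fun s hs t ht => hsep s hs t ht fun i => i.elim0
    have h2 : (Q.card : ℝ) ≤ 1 := by exact_mod_cast h1
    linarith
  have hr1R : (1 : ℝ) ≤ r := by exact_mod_cast hr1
  have hrκ : (r : ℝ) ≤ 3 * κ * L := by
    have h1 : (r : ℝ) * Real.log 2 ≤ Real.log 2 + κ * L := by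
      have h2 := Real.log_le_log (by positivity) hr2
      rw [Real.log_pow, hpow, Real.log_mul (by norm_num) (Real.exp_pos _).ne',
        Real.log_exp] at h2
      exact h2
    have h3 : (1 / 2 : ℝ) ≤ Real.log 2 := by
      have := Real.log_two_gt_d9
      linarith
    have h4 : ((r : ℝ) - 1) * (1 / 2) ≤ ((r : ℝ) - 1) * Real.log 2 :=
      mul_le_mul_of_nonneg_left h3 (by linarith)
    linarith
  obtain ⟨M, hM⟩ : ∃ M : ℝ, M = (C2 * L / r) ^ r := ⟨_, rfl⟩
  have hM0 : 0 < M := by rw [hM]; positivity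
  have hMle : M ≤ N ^ (c' / 8) := by
    rw [hpow, ← Real.log_le_iff_le_exp hM0, hM, Real.log_pow]
    have h1 := log_le_lin l (C2 * L / r) hl0 (by positivity)
    have h2 := mul_le_mul_of_nonneg_left h1 (show (0 : ℝ) ≤ r by linarith)
    have h3 : (r : ℝ) * (l * (C2 * L / r) + Real.log (1 / l)) =
        l * C2 * L + r * Real.log (1 / l) := by
      field_simp
    rw [h3] at h2
    have h4 : l * C2 * L ≤ c' / 16 * L := mul_le_mul_of_nonneg_right hlC hLp.le
    have h5 : r * Real.log (1 / l) ≤ c' / 16 * L := by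
      calc r * Real.log (1 / l) ≤ (3 * κ * L) * Real.log (1 / l) :=
            mul_le_mul_of_nonneg_right hrκ hlog
        _ = (3 * κ * Real.log (1 / l)) * L := by ring
        _ ≤ c' / 16 * L := mul_le_mul_of_nonneg_right hκ3 hLp.le
    linarith
  -- few rich fibres
  have hnorich : ∀ Z : Finset ℚ, (∀ z ∈ Z, M < ((rich A Q z).card : ℝ)) →
      (Z.card : ℝ) ≤ N ^ (1 - c2) := by
    intro Z hZ
    by_contra hcon
    rw [not_le] at hcon
    refine hG (hgrow A r pr Q Z ?_ hr1 ?_ hprime hQpos hsep ?_ ?_ ?_)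
    · rw [← hN]
      linarith
    · rw [← hN, ← hL]
      have h1 : 3 * κ * L ≤ c2 * L := by
        refine mul_le_mul_of_nonneg_right ?_ hLp.le
        linarith
      linarith
    · rw [← hN]
      refine hQTR.trans (hTc.trans (Real.rpow_le_rpow_of_exponent_le hA1 ?_))
      linarith
    · rw [← hN]
      exact hcon
    · intro z hz
      rw [← hN, ← hL, ← hM]
      exact hZ z hz
  obtain ⟨D, hD⟩ : ∃ D : Finset ℚ, D = Finset.image₂ (fun a b => a / b) H H := ⟨_, rfl⟩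
  rw [← hD] at hHD
  have h1 := count_rich A H Q D hQH hHpos hD (N ^ (1 - κ)) M (N ^ (1 - c2)) hM0.le hHs hnorich
  rw [← hN] at h1
  obtain ⟨x, hx⟩ : ∃ x : ℝ, x = Q.card := ⟨_, rfl⟩
  rw [← hx] at h1 hTQR
  have hx0 : 0 ≤ x := by rw [hx]; exact Nat.cast_nonneg _
  have h2 : N ^ (1 - κ) * x ≤ N ^ κ * (2 * M * N + x * N ^ (1 - c2)) := by
    have h3 : (H.card : ℝ) * (N ^ (1 - κ) * x) ≤
        H.card * (N ^ κ * (2 * M * N + x * N ^ (1 - c2))) := by
      calc (H.card : ℝ) * (N ^ (1 - κ) * x) = H.card * N ^ (1 - κ) * x := by ring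
        _ ≤ D.card * (2 * M * N + x * N ^ (1 - c2)) := h1
        _ ≤ (N ^ κ * H.card) * (2 * M * N + x * N ^ (1 - c2)) :=
            mul_le_mul_of_nonneg_right hHD (by positivity)
        _ = _ := by ring
    exact le_of_mul_le_mul_left h3 hHp
  have h3 : N ^ (1 - κ) = N ^ (c2 - 2 * κ) * (N ^ κ * N ^ (1 - c2)) := by
    rw [← Real.rpow_add hA0, ← Real.rpow_add hA0]
    congr 1
    ring
  have h4 : 2 ≤ N ^ (c2 - 2 * κ) := by
    have h5 := hpow2 1 (c2 / 2) (by push_cast; linarith)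
    rw [pow_one] at h5
    exact h5.trans (Real.rpow_le_rpow_of_exponent_le hA1 (by linarith))
  have h5 : 2 * (N ^ κ * N ^ (1 - c2)) ≤ N ^ (1 - κ) := by
    rw [h3]
    exact mul_le_mul_of_nonneg_right h4 (by positivity)
  have h6 : N ^ (1 - κ) * x ≤ 4 * (N ^ κ * (M * N)) := by
    have h7 := mul_le_mul_of_nonneg_right h5 hx0
    have h8 : N ^ κ * (2 * M * N + x * N ^ (1 - c2)) =
        2 * (N ^ κ * (M * N)) + (N ^ κ * N ^ (1 - c2)) * x := by ring
    rw [h8] at h2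
    linarith
  have h7 : N ^ κ * (M * N) = N ^ (1 - κ) * (N ^ (2 * κ) * M) := by
    have : N ^ κ * N = N ^ (1 - κ) * N ^ (2 * κ) := by
      rw [← Real.rpow_add hA0]
      nth_rewrite 2 [← Real.rpow_one N]
      rw [← Real.rpow_add hA0]
      congr 1
      ring
    calc N ^ κ * (M * N) = (N ^ κ * N) * M := by ring
      _ = _ := by rw [this]; ring
  rw [h7] at h6
  have h8 : x ≤ 4 * (N ^ (2 * κ) * M) := by
    have h9 : N ^ (1 - κ) * x ≤ N ^ (1 - κ) * (4 * (N ^ (2 * κ) * M)) := by linarith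
    exact le_of_mul_le_mul_left h9 (Real.rpow_pos_of_pos hA0 _)
  have h9 : N ^ (2 * κ) * M ≤ N ^ (c' / 2) := by
    calc N ^ (2 * κ) * M ≤ N ^ (2 * κ) * N ^ (c' / 8) :=
          mul_le_mul_of_nonneg_left hMle (Real.rpow_nonneg hA0.le _)
      _ = N ^ (2 * κ + c' / 8) := (Real.rpow_add hA0 _ _).symm
      _ ≤ N ^ (c' / 2) := Real.rpow_le_rpow_of_exponent_le hA1 (by linarith)
  have h10 : 16 ≤ N ^ (c' / 2) := by
    have h11 := hpow2 4 (c' / 2) (by push_cast; linarith)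
    norm_num at h11
    exact h11
  have h11 : N ^ c' = N ^ (c' / 2) * N ^ (c' / 2) := by
    rw [← Real.rpow_add hA0]
    congr 1
    ring
  have h12 : 16 * N ^ (c' / 2) ≤ N ^ (c' / 2) * N ^ (c' / 2) :=
    mul_le_mul_of_nonneg_right h10 (by linarith)
  linarith

end Pool.Agent.Helper15.GPQ
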