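import Pool.Agent.Helper15.GPQ.Free

set_option autoImplicit false

/-!
# Project GL++ (MP_120218), Inc: a set with many dilation coincidences has maximal sumsets
-/

namespace Pool.Agent.Helper15.GPQ

open Finset

/-- coincidences, popular ratios -/
theorem inc_energy (A : Finset ℤ) (P B : Finset ℚ) (hP : ∀ s ∈ P, s ≠ 0) :
    (((A ×ˢ P).filter (fun q : ℤ × ℚ => (q.1 : ℚ) * q.2 ∈ B)).card : ℝ) ^ 2 ≤
      B.card * ∑ t ∈ P, ∑ s ∈ P, ((stay A (s / t)).card : ℝ) := by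
  classical
  obtain ⟨I, hI⟩ : ∃ I : Finset (ℤ × ℚ), I = (A ×ˢ P).filter
    (fun q : ℤ × ℚ => (q.1 : ℚ) * q.2 ∈ B) := ⟨_, rfl⟩
  rw [← hI]
  have memI : ∀ q : ℤ × ℚ, q ∈ I → q.1 ∈ A ∧ q.2 ∈ P ∧ (q.1 : ℚ) * q.2 ∈ B := by
    intro q hq
    rw [hI, Finset.mem_filter, Finset.mem_product] at hq
    exact ⟨hq.1.1, hq.1.2, hq.2⟩
  have h1 : I.card = ∑ x ∈ B, (I.filter (fun q : ℤ × ℚ => (q.1 : ℚ) * q.2 = x)).card :=
    Finset.card_eq_sum_card_fiberwise fun q hq =>
      Finset.mem_coe.2 (memI q (Finset.mem_coe.1 hq)).2.2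
  have h2 : (I.card : ℝ) ^ 2 ≤ B.card * ∑ x ∈ B,
      ((I.filter (fun q : ℤ × ℚ => (q.1 : ℚ) * q.2 = x)).card : ℝ) ^ 2 := by
    rw [h1]
    push_cast
    exact sq_sum_le_card_mul_sum_sq
  refine h2.trans (mul_le_mul_of_nonneg_left ?_ (Nat.cast_nonneg _))
  have h3 : ∑ x ∈ B, (I.filter (fun q : ℤ × ℚ => (q.1 : ℚ) * q.2 = x)).card ^ 2 ≤
      ∑ t ∈ P, ∑ s ∈ P, (stay A (s / t)).card := by
    calc ∑ x ∈ B, (I.filter (fun q : ℤ × ℚ => (q.1 : ℚ) * q.2 = x)).card ^ 2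
        = (B.sigma (fun x => (I.filter (fun q : ℤ × ℚ => (q.1 : ℚ) * q.2 = x)) ×ˢ
            (I.filter (fun q : ℤ × ℚ => (q.1 : ℚ) * q.2 = x)))).card := by
          rw [Finset.card_sigma]
          refine Finset.sum_congr rfl fun x _ => ?_
          rw [Finset.card_product, sq]
      _ ≤ ((P ×ˢ P).sigma (fun y => stay A (y.2 / y.1))).card := by
          refine Finset.card_le_card_of_injOn
            (fun z : (_ : ℚ) × ((ℤ × ℚ) × (ℤ × ℚ)) =>
              (⟨(z.2.2.2, z.2.1.2), z.2.1.1⟩ : (_ : ℚ × ℚ) × ℤ)) ?_ ?_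
          · rintro ⟨x, ⟨a, s⟩, ⟨b, t⟩⟩ hz
            have h4 := Finset.mem_sigma.1 (Finset.mem_coe.1 hz)
            obtain ⟨h5, h6⟩ := Finset.mem_product.1 h4.2
            obtain ⟨h7, h8⟩ := Finset.mem_filter.1 h5
            obtain ⟨h9, h10⟩ := Finset.mem_filter.1 h6
            obtain ⟨ha, hs, _⟩ := memI _ h7
            obtain ⟨hb, ht, _⟩ := memI _ h9
            simp only at ha hs hb ht h8 h10
            refine Finset.mem_coe.2 (Finset.mem_sigma.2 ⟨Finset.mem_product.2 ⟨ht, hs⟩, ?_⟩)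
            show a ∈ stay A (s / t)
            unfold stay
            refine Finset.mem_filter.2 ⟨ha, b, hb, ?_⟩
            have ht0 := hP t ht
            rw [mul_div_assoc', eq_div_iff ht0, h10, h8]
          · rintro ⟨x, ⟨a, s⟩, ⟨b, t⟩⟩ hz ⟨x', ⟨a', s'⟩, ⟨b', t'⟩⟩ hz' e
            have h4 := Finset.mem_sigma.1 (Finset.mem_coe.1 hz)
            obtain ⟨h5, h6⟩ := Finset.mem_product.1 h4.2
            obtain ⟨h7, h8⟩ := Finset.mem_filter.1 h5
            obtain ⟨h9, h10⟩ := Finset.mem_filter.1 h6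
            obtain ⟨ha, hs, _⟩ := memI _ h7
            obtain ⟨hb, ht, _⟩ := memI _ h9
            have h4' := Finset.mem_sigma.1 (Finset.mem_coe.1 hz')
            obtain ⟨h5', h6'⟩ := Finset.mem_product.1 h4'.2
            obtain ⟨h7', h8'⟩ := Finset.mem_filter.1 h5'
            obtain ⟨h9', h10'⟩ := Finset.mem_filter.1 h6'
            simp only at ha hs hb ht h8 h10 h8' h10'
            have e1 := Sigma.mk.inj e
            have e2 := Prod.mk.inj e1.1
            have e3 : a = a' := eq_of_heq e1.2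
            obtain ⟨e4, e5⟩ := e2
            simp only at e4 e5
            have ht0 := hP t ht
            subst e3
            subst e4
            subst e5
            have e6 : x = x' := by rw [← h8, ← h8']
            subst e6
            have e7 : (b : ℚ) = b' := by
              have e8 : (b : ℚ) * t = b' * t := by rw [h10, h10']
              exact mul_right_cancel₀ ht0 e8
            have e9 : b = b' := by exact_mod_cast e7
            subst e9
            rfl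
      _ = ∑ t ∈ P, ∑ s ∈ P, (stay A (s / t)).card := by
          rw [Finset.card_sigma, Finset.sum_product]
  exact_mod_cast h3

/-- **Many dilation coincidences** force maximal sumsets. -/
theorem grow_inc (η B δ : ℝ) (hη : 0 < η) (hη1 : η ≤ 1) (hB : 0 ≤ B) (hδ : 0 < δ) :
    ∃ τ N0 : ℝ, 0 < τ ∧ 1 ≤ N0 ∧ ∀ (A : Finset ℤ) (P Q : Finset ℚ), (∀ s ∈ P, s ≠ 0) →
      N0 ≤ A.card → (A.card : ℝ) ^ δ ≤ P.card → (Q.card : ℝ) ≤ (A.card : ℝ) ^ (1 + τ) →
      (A.card : ℝ) ^ (1 - τ) * P.card ≤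
        (((A ×ˢ P).filter (fun q : ℤ × ℚ => (q.1 : ℚ) * q.2 ∈ Q)).card : ℝ) → GrowsB η B A := by
  classical
  obtain ⟨θ, N1, hθ, hN1, hpop⟩ := grow_pop η B (δ / 2) hη hη1 hB (by positivity)
  obtain ⟨τ, hτ⟩ : ∃ τ : ℝ, τ = min (θ / 4) (δ / 8) := ⟨_, rfl⟩
  have hτ0 : 0 < τ := by rw [hτ]; exact lt_min (by positivity) (by positivity)
  have hτθ : τ ≤ θ / 4 := by rw [hτ]; exact min_le_left _ _
  have hτδ : τ ≤ δ / 8 := by rw [hτ]; exact min_le_right _ _
  have p1 : (0 : ℝ) < 2 ^ (1 / τ) := Real.rpow_pos_of_pos (by norm_num) _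
  refine ⟨τ, N1 + 2 ^ (1 / τ), hτ0, by linarith, ?_⟩
  intro A P Q hP0 hAN hPδ hQ hI
  obtain ⟨N, hN⟩ : ∃ N : ℝ, N = A.card := ⟨_, rfl⟩
  rw [← hN] at hAN hPδ hQ hI
  have hA1 : 1 ≤ N := by linarith
  have hA0 : 0 < N := by linarith
  have h2τ : 2 ≤ N ^ τ := by
    have h1 : (2 : ℝ) ^ (1 / τ) ≤ N := by linarith
    have h2 := Real.rpow_le_rpow p1.le h1 hτ0.le
    rw [← Real.rpow_mul (by norm_num)] at h2
    have h3 : 1 / τ * τ = 1 := by field_simp
    rwa [h3, Real.rpow_one] at h2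
  have hPp : (0 : ℝ) < P.card := lt_of_lt_of_le (Real.rpow_pos_of_pos hA0 _) hPδ
  have hPne : P.Nonempty := by
    rw [← Finset.card_pos]
    exact_mod_cast hPp
  obtain ⟨p, hp⟩ : ∃ p : ℝ, p = P.card := ⟨_, rfl⟩
  have hE := inc_energy A P Q hP0
  obtain ⟨E, hEd⟩ : ∃ E : ℝ, E = ∑ t ∈ P, ∑ s ∈ P, ((stay A (s / t)).card : ℝ) := ⟨_, rfl⟩
  have hE0 : 0 ≤ E := by
    rw [hEd]
    exact Finset.sum_nonneg fun _ _ => Finset.sum_nonneg fun _ _ => Nat.cast_nonneg _
  rw [← hEd] at hE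
  rw [← hp] at hI hPp hPδ
  have h1 : N ^ (1 - 3 * τ) * p ^ 2 ≤ E := by
    have h2 : (N ^ (1 - τ) * p) ^ 2 ≤ N ^ (1 + τ) * E :=
      (pow_le_pow_left₀ (by positivity) hI 2).trans
        (hE.trans (mul_le_mul_of_nonneg_right hQ hE0))
    have h3 : (N ^ (1 - τ) * p) ^ 2 = N ^ (1 + τ) * (N ^ (1 - 3 * τ) * p ^ 2) := by
      rw [mul_pow, ← Real.rpow_natCast (N ^ (1 - τ)), ← Real.rpow_mul hA0.le, ← mul_assoc,
        ← Real.rpow_add hA0]
      congr 2
      push_cast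
      ring
    rw [h3] at h2
    exact le_of_mul_le_mul_left h2 (Real.rpow_pos_of_pos hA0 _)
  -- one good base point
  obtain ⟨t, ht, ht2⟩ : ∃ t ∈ P, N ^ (1 - 3 * τ) * p ≤ ∑ s ∈ P, ((stay A (s / t)).card : ℝ) := by
    by_contra hcon
    push Not at hcon
    have h2 : E < ∑ t ∈ P, N ^ (1 - 3 * τ) * p := by
      rw [hEd]
      exact Finset.sum_lt_sum_of_nonempty hPne hcon
    rw [Finset.sum_const, nsmul_eq_mul, ← hp] at h2
    have h3 : p * (N ^ (1 - 3 * τ) * p) = N ^ (1 - 3 * τ) * p ^ 2 := by ring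
    linarith
  obtain ⟨P1, hP1⟩ : ∃ P1 : Finset ℚ, P1 = P.filter
    (fun s => N ^ (1 - 4 * τ) ≤ ((stay A (s / t)).card : ℝ)) := ⟨_, rfl⟩
  have hP1c : N ^ (-(4 * τ)) * p ≤ P1.card := by
    have h2 : ∑ s ∈ P, ((stay A (s / t)).card : ℝ) ≤ N * P1.card + N ^ (1 - 4 * τ) * p := by
      calc ∑ s ∈ P, ((stay A (s / t)).card : ℝ) ≤
            ∑ s ∈ P, ((if N ^ (1 - 4 * τ) ≤ ((stay A (s / t)).card : ℝ) then N else 0) +
              N ^ (1 - 4 * τ)) := by
            refine Finset.sum_le_sum fun s _ => ?_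
            by_cases h3 : N ^ (1 - 4 * τ) ≤ ((stay A (s / t)).card : ℝ)
            · rw [if_pos h3]
              have h4 : ((stay A (s / t)).card : ℝ) ≤ N := by
                rw [hN]
                exact_mod_cast Finset.card_le_card (Finset.filter_subset _ _)
              have h5 : 0 ≤ N ^ (1 - 4 * τ) := Real.rpow_nonneg hA0.le _
              linarith
            · rw [if_neg h3, zero_add]
              exact (not_le.1 h3).le
        _ = N * P1.card + N ^ (1 - 4 * τ) * p := by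
            rw [Finset.sum_add_distrib, Finset.sum_const, nsmul_eq_mul, Finset.sum_ite,
              Finset.sum_const_zero, add_zero, Finset.sum_const, nsmul_eq_mul, hP1, hp]
            ring
    have h3 : N ^ (1 - 3 * τ) = N ^ τ * N ^ (1 - 4 * τ) := by
      rw [← Real.rpow_add hA0]
      congr 1
      ring
    have h4 : 0 ≤ N ^ (1 - 4 * τ) * p := by positivity
    have h5 : 2 * (N ^ (1 - 4 * τ) * p) ≤ N ^ τ * (N ^ (1 - 4 * τ) * p) :=
      mul_le_mul_of_nonneg_right h2τ h4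
    have h6 : N ^ (1 - 4 * τ) * p ≤ N * P1.card := by
      have h7 : N ^ (1 - 3 * τ) * p = N ^ τ * (N ^ (1 - 4 * τ) * p) := by rw [h3]; ring
      linarith
    have h7 : N ^ (1 - 4 * τ) * p = N * (N ^ (-(4 * τ)) * p) := by
      have : N ^ (1 - 4 * τ) = N * N ^ (-(4 * τ)) := by
        nth_rewrite 2 [← Real.rpow_one N]
        rw [← Real.rpow_add hA0]
        congr 1
      rw [this]
      ring
    rw [h7] at h6
    exact le_of_mul_le_mul_left h6 hA0
  have ht0 := hP0 t ht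
  obtain ⟨R, hR⟩ : ∃ R : Finset ℚ, R = P1.image (fun s => s / t) := ⟨_, rfl⟩
  have hRc : R.card = P1.card := by
    rw [hR, Finset.card_image_of_injOn]
    intro a _ b _ h
    exact (div_left_inj' ht0).1 h
  refine hpop A R ?_ ?_ ?_ ?_
  · intro s hs
    rw [hR] at hs
    obtain ⟨x, hx, rfl⟩ := Finset.mem_image.1 hs
    rw [hP1] at hx
    exact div_ne_zero (hP0 x (Finset.mem_filter.1 hx).1) ht0
  · rw [← hN]
    linarith
  · rw [← hN, hRc]
    refine le_trans ?_ hP1c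
    calc N ^ (δ / 2) ≤ N ^ (-(4 * τ) + δ) :=
          Real.rpow_le_rpow_of_exponent_le hA1 (by linarith)
      _ = N ^ (-(4 * τ)) * N ^ δ := Real.rpow_add hA0 _ _
      _ ≤ N ^ (-(4 * τ)) * p := mul_le_mul_of_nonneg_left hPδ (Real.rpow_nonneg hA0.le _)
  · intro s hs
    rw [hR] at hs
    obtain ⟨x, hx, rfl⟩ := Finset.mem_image.1 hs
    rw [hP1] at hx
    rw [← hN]
    refine le_trans ?_ (Finset.mem_filter.1 hx).2
    exact Real.rpow_le_rpow_of_exponent_le hA1 (by linarith)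

end Pool.Agent.Helper15.GPQ
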