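import Pool.Agent.Helper15.GPQ.Base
import Pool.Agent.Helper28.LN.Shift

set_option autoImplicit false

/-!
# Project GL++ (MP_120218), Opt: the extremal sets (copies of the lemmas of GL.Opt and LN.Sharp)
-/

namespace Pool.Agent.Helper15.GPQ

open Finset Pool.Agent.Helper28.LN

/-- `AP` -/
def prd (A : Finset ℤ) (P : Finset ℚ) : Finset ℚ :=
  Finset.image₂ (fun (a : ℤ) (s : ℚ) => (a : ℚ) * s) A P

/-- signs -/

theorem opt_fac {r : ℕ} (p : Fin r → ℕ) (hp : ∀ i, (p i).Prime) (hinj : Function.Injective p)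
    (m : ℕ) (hm0 : m ≠ 0) (hm : ∀ i, ¬ p i ∣ m) (e : Fin r → ℕ) (i : Fin r) :
    (m * ∏ j, p j ^ e j).factorization (p i) = e i := by
  classical
  have h0 : ∀ j, p j ^ e j ≠ 0 := fun j => pow_ne_zero _ (hp j).ne_zero
  have hprod : (∏ j, p j ^ e j) ≠ 0 := Finset.prod_ne_zero_iff.2 fun j _ => h0 j
  rw [Nat.factorization_mul hm0 hprod, Finsupp.add_apply,
    Nat.factorization_eq_zero_of_not_dvd (hm i), zero_add,
    Nat.factorization_prod (fun j _ => h0 j), Finsupp.finsetSum_apply]
  have h1 : ∀ j ∈ (Finset.univ : Finset (Fin r)),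
      ((p j ^ e j).factorization) (p i) = if j = i then e j else 0 := by
    intro j _
    rw [Nat.factorization_pow, Finsupp.smul_apply, (hp j).factorization, Finsupp.single_apply]
    by_cases h : j = i
    · rw [if_pos (by rw [h]), if_pos h]
      simp
    · rw [if_neg (fun h' => h (hinj h')), if_neg h]
      simp
  rw [Finset.sum_congr rfl h1, Finset.sum_ite_eq' Finset.univ i e, if_pos (Finset.mem_univ i)]

/-- the multidimensional geometric progression with natural exponents -/
def gprogN {r : ℕ} (g : Fin r → ℚ) (L : ℕ) : Finset ℚ :=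
  (Fintype.piFinset (fun _ : Fin r => Finset.range L)).image (fun e => ∏ i, g i ^ e i)

/-- the multidimensional geometric progression -/
noncomputable def gprog {r : ℕ} (g : Fin r → ℚ) (L : ℕ) : Finset ℚ :=
  (Fintype.piFinset (fun _ : Fin r => Finset.Icc (-(L : ℤ)) (L : ℤ))).image
    (fun e => ∏ i, g i ^ e i)

theorem gprog_eq {r : ℕ} (g : Fin r → ℚ) (hg : ∀ i, g i ≠ 0) (L : ℕ) :
    gprog g L = (gprogN g (2 * L + 1)).image (fun s => s * (∏ i, g i ^ L)⁻¹) := by
  classical
  have hL : (∏ i, g i ^ L) ≠ 0 := Finset.prod_ne_zero_iff.2 fun i _ => pow_ne_zero _ (hg i)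
  ext x
  unfold gprog gprogN
  rw [Finset.mem_image, Finset.mem_image]
  constructor
  · rintro ⟨e, he, rfl⟩
    rw [Fintype.mem_piFinset] at he
    refine ⟨∏ i, g i ^ (e i + L).toNat, Finset.mem_image.2 ⟨fun i => (e i + L).toNat, ?_, rfl⟩, ?_⟩
    · rw [Fintype.mem_piFinset]
      intro i
      have h1 := Finset.mem_Icc.1 (he i)
      rw [Finset.mem_range]
      omega
    · rw [← div_eq_mul_inv, ← Finset.prod_div_distrib]
      refine Finset.prod_congr rfl fun i _ => ?_
      have h1 := Finset.mem_Icc.1 (he i)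
      have h2 : (((e i + L).toNat : ℕ) : ℤ) = e i + L := Int.toNat_of_nonneg (by omega)
      rw [← zpow_natCast, ← zpow_natCast, ← zpow_sub₀ (hg i), h2]
      congr 1
      ring
  · rintro ⟨y, hy, rfl⟩
    obtain ⟨e, he, rfl⟩ := Finset.mem_image.1 hy
    rw [Fintype.mem_piFinset] at he
    refine ⟨fun i => (e i : ℤ) - L, ?_, ?_⟩
    · rw [Fintype.mem_piFinset]
      intro i
      have h1 := Finset.mem_range.1 (he i)
      rw [Finset.mem_Icc]
      omega
    · rw [← div_eq_mul_inv, ← Finset.prod_div_distrib]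
      refine Finset.prod_congr rfl fun i _ => ?_
      rw [zpow_sub₀ (hg i), zpow_natCast, zpow_natCast]

theorem card_gprog_eq {r : ℕ} (g : Fin r → ℚ) (hg : ∀ i, g i ≠ 0) (L : ℕ) :
    (gprog g L).card = (gprogN g (2 * L + 1)).card := by
  classical
  have hL : (∏ i, g i ^ L) ≠ 0 := Finset.prod_ne_zero_iff.2 fun i _ => pow_ne_zero _ (hg i)
  rw [gprog_eq g hg, Finset.card_image_of_injective]
  exact mul_left_injective₀ (inv_ne_zero hL)

theorem card_prd_eq {r : ℕ} (g : Fin r → ℚ) (hg : ∀ i, g i ≠ 0) (L : ℕ) (A : Finset ℤ) :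
    (prd A (gprog g L)).card ≤ (prd A (gprogN g (2 * L + 1))).card := by
  classical
  have hsub : prd A (gprog g L) ⊆
      (prd A (gprogN g (2 * L + 1))).image (fun s => s * (∏ i, g i ^ L)⁻¹) := by
    intro z hz
    rw [gprog_eq g hg] at hz
    unfold prd at hz
    obtain ⟨a, ha, s, hs, rfl⟩ := Finset.mem_image₂.1 hz
    obtain ⟨t, ht, rfl⟩ := Finset.mem_image.1 hs
    refine Finset.mem_image.2 ⟨(a : ℚ) * t, Finset.mem_image₂_of_mem ha ht, ?_⟩
    ring
  exact (Finset.card_le_card hsub).trans Finset.card_image_le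

/-- the extremal set -/
def optA {r : ℕ} (p : Fin r → ℕ) (D T n : ℕ) : Finset ℤ :=
  (Finset.range T ×ˢ Fintype.piFinset (fun _ : Fin r => Finset.range n)).image
    (fun x : ℕ × (Fin r → ℕ) => (((1 + D * x.1) * ∏ i, p i ^ x.2 i : ℕ) : ℤ))

theorem card_optA {r : ℕ} (p : Fin r → ℕ) (hp : ∀ i, (p i).Prime) (hinj : Function.Injective p)
    (D T n : ℕ) (hD : ∀ i, p i ∣ D) (hD0 : 0 < D) : (optA p D T n).card = T * n ^ r := by
  classical
  unfold optA
  rw [Finset.card_image_of_injOn, Finset.card_product, Finset.card_range, Fintype.card_piFinset]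
  · simp
  · rintro ⟨t, e⟩ _ ⟨t', e'⟩ _ h
    have h1 : (1 + D * t) * ∏ i, p i ^ e i = (1 + D * t') * ∏ i, p i ^ e' i := by
      have h' : (((1 + D * t) * ∏ i, p i ^ e i : ℕ) : ℤ) =
          (((1 + D * t') * ∏ i, p i ^ e' i : ℕ) : ℤ) := h
      exact Int.natCast_inj.1 h'
    have hnd : ∀ (t : ℕ) (i : Fin r), ¬ p i ∣ 1 + D * t := by
      intro t i hd
      have h2 : p i ∣ 1 := (Nat.dvd_add_left ((hD i).mul_right t)).1 hd
      exact (hp i).one_lt.ne' (Nat.dvd_one.1 h2)
    have he : e = e' := by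
      funext i
      have h2 := opt_fac p hp hinj (1 + D * t) (by omega) (hnd t) e i
      have h3 := opt_fac p hp hinj (1 + D * t') (by omega) (hnd t') e' i
      rw [← h2, ← h3, h1]
    subst he
    have hpos : 0 < ∏ i, p i ^ e i := Finset.prod_pos fun i _ => pow_pos (hp i).pos _
    have h4 := Nat.eq_of_mul_eq_mul_right hpos h1
    have h5 : t = t' := Nat.eq_of_mul_eq_mul_left hD0 (by omega)
    rw [h5]

theorem card_gprogN {r : ℕ} (p : Fin r → ℕ) (hp : ∀ i, (p i).Prime)
    (hinj : Function.Injective p) (L : ℕ) : (gprogN (fun i => (p i : ℚ)) L).card = L ^ r := by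
  classical
  unfold gprogN
  rw [Finset.card_image_of_injOn, Fintype.card_piFinset]
  · simp
  · intro e _ e' _ h
    have h1 : 1 * ∏ i, p i ^ e i = 1 * ∏ i, p i ^ e' i := by
      rw [one_mul, one_mul]
      have h' : ∏ i, ((p i : ℚ)) ^ e i = ∏ i, ((p i : ℚ)) ^ e' i := h
      exact_mod_cast h'
    have hnd : ∀ i : Fin r, ¬ p i ∣ 1 := by
      intro i hd
      exact (hp i).one_lt.ne' (Nat.dvd_one.1 hd)
    funext i
    have h2 := opt_fac p hp hinj 1 one_ne_zero hnd e i
    have h3 := opt_fac p hp hinj 1 one_ne_zero hnd e' i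
    rw [← h2, ← h3, h1]

theorem card_prd_opt {r : ℕ} (p : Fin r → ℕ) (D T n L : ℕ) :
    (prd (optA p D T n) (gprogN (fun i => (p i : ℚ)) (2 * L + 1))).card ≤
      T * (n + 2 * L) ^ r := by
  classical
  have hsub : prd (optA p D T n) (gprogN (fun i => (p i : ℚ)) (2 * L + 1)) ⊆
      (Finset.range T ×ˢ Fintype.piFinset (fun _ : Fin r => Finset.range (n + 2 * L))).image
        (fun x : ℕ × (Fin r → ℕ) => (((1 + D * x.1) * ∏ i, p i ^ x.2 i : ℕ) : ℚ)) := by
    intro z hz
    unfold prd optA gprogN at hz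
    obtain ⟨a, ha, s, hs, rfl⟩ := Finset.mem_image₂.1 hz
    obtain ⟨⟨t, e⟩, hte, rfl⟩ := Finset.mem_image.1 ha
    obtain ⟨f, hf, rfl⟩ := Finset.mem_image.1 hs
    rw [Finset.mem_product, Fintype.mem_piFinset] at hte
    rw [Fintype.mem_piFinset] at hf
    refine Finset.mem_image.2 ⟨(t, fun i => e i + f i), ?_, ?_⟩
    · rw [Finset.mem_product, Fintype.mem_piFinset]
      refine ⟨hte.1, fun i => ?_⟩
      have h1 := Finset.mem_range.1 (hte.2 i)
      have h2 := Finset.mem_range.1 (hf i)
      have h1' : e i < n := h1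
      have h3 : e i + f i < n + 2 * L := by omega
      exact Finset.mem_range.2 h3
    · push_cast
      rw [mul_assoc, ← Finset.prod_mul_distrib]
      congr 1
      exact Finset.prod_congr rfl fun i _ => by rw [pow_add]
  refine (Finset.card_le_card hsub).trans (Finset.card_image_le.trans ?_)
  rw [Finset.card_product, Finset.card_range, Fintype.card_piFinset]
  simp

/-- every element of the extremal set has many neighbours -/
theorem rich_opt {r : ℕ} (p : Fin r → ℕ) (hp : ∀ i, (p i).Prime) (hinj : Function.Injective p)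
    (D T n L : ℕ) (hnL : n ≤ L) (a : ℤ) (ha : a ∈ optA p D T n) :
    n ^ r ≤ (rich (optA p D T n) (gprog (fun i => (p i : ℚ)) L) a).card := by
  classical
  unfold optA at ha
  obtain ⟨⟨t, e⟩, hte, rfl⟩ := Finset.mem_image.1 ha
  rw [Finset.mem_product, Fintype.mem_piFinset] at hte
  have hcard : (Fintype.piFinset (fun _ : Fin r => Finset.range n)).card = n ^ r := by
    rw [Fintype.card_piFinset]
    simp
  rw [← hcard]
  refine Finset.card_le_card_of_injOn
    (fun f : Fin r → ℕ => (((1 + D * t) * ∏ i, p i ^ f i : ℕ) : ℤ)) ?_ ?_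
  · intro f hf
    have hf' := Finset.mem_coe.1 hf
    rw [Fintype.mem_piFinset] at hf'
    refine Finset.mem_coe.2 (mem_rich.2 ⟨?_, ∏ i, (p i : ℚ) ^ ((f i : ℤ) - e i), ?_, ?_⟩)
    · unfold optA
      refine Finset.mem_image.2 ⟨(t, f), ?_, rfl⟩
      rw [Finset.mem_product, Fintype.mem_piFinset]
      exact ⟨hte.1, hf'⟩
    · unfold gprog
      refine Finset.mem_image.2 ⟨fun i => (f i : ℤ) - e i, ?_, rfl⟩
      rw [Fintype.mem_piFinset]
      intro i
      have h1 := Finset.mem_range.1 (hte.2 i)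
      have h2 := Finset.mem_range.1 (hf' i)
      have h1' : e i < n := h1
      rw [Finset.mem_Icc]
      omega
    · push_cast
      rw [mul_assoc, ← Finset.prod_mul_distrib]
      congr 1
      refine Finset.prod_congr rfl fun i _ => ?_
      have h0 : (p i : ℚ) ≠ 0 := Nat.cast_ne_zero.2 (hp i).ne_zero
      rw [zpow_sub₀ h0, zpow_natCast, zpow_natCast]
      field_simp
  · intro f _ f' _ h
    have h1 : (1 + D * t) * ∏ i, p i ^ f i = (1 + D * t) * ∏ i, p i ^ f' i := by
      have h' : (((1 + D * t) * ∏ i, p i ^ f i : ℕ) : ℤ) =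
          (((1 + D * t) * ∏ i, p i ^ f' i : ℕ) : ℤ) := h
      exact Int.natCast_inj.1 h'
    have h2 := Nat.eq_of_mul_eq_mul_left (by omega) h1
    have hnd : ∀ i : Fin r, ¬ p i ∣ 1 := by
      intro i hd
      exact (hp i).one_lt.ne' (Nat.dvd_one.1 hd)
    funext i
    have h3 := opt_fac p hp hinj 1 one_ne_zero hnd f i
    have h4 := opt_fac p hp hinj 1 one_ne_zero hnd f' i
    rw [← h3, ← h4, h2]

theorem sum_optA {r : ℕ} (p : Fin r → ℕ) (hp : ∀ i, (p i).Prime) (D T n : ℕ)
    (hD : D = ∏ i, p i) (hD0 : 0 < D) (k : ℕ) :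
    ((Fintype.piFinset (fun _ : Fin k => optA p D T n)).image
      (fun f : Fin k → ℤ => ∑ i, f i)).card ≤ k * (T * D ^ (n + 1)) + 1 := by
  classical
  have hmem : ∀ a ∈ optA p D T n, 0 ≤ a ∧ a ≤ ((T * D ^ (n + 1) : ℕ) : ℤ) := by
    intro a ha
    unfold optA at ha
    obtain ⟨⟨t, e⟩, hte, rfl⟩ := Finset.mem_image.1 ha
    rw [Finset.mem_product, Fintype.mem_piFinset] at hte
    refine ⟨by positivity, ?_⟩
    have ht := Finset.mem_range.1 hte.1
    have h1 : ∏ i, p i ^ e i ≤ D ^ n := by
      rw [hD, ← Finset.prod_pow]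
      refine Finset.prod_le_prod' fun i _ => ?_
      exact Nat.pow_le_pow_right (hp i).pos (Finset.mem_range.1 (hte.2 i)).le
    have h2 : 1 + D * t ≤ T * D := by
      have ht' : t < T := ht
      calc 1 + D * t ≤ D + D * t := by omega
        _ = (t + 1) * D := by ring
        _ ≤ T * D := Nat.mul_le_mul_right _ ht'
    have h3 : (1 + D * t) * ∏ i, p i ^ e i ≤ T * D ^ (n + 1) := by
      calc (1 + D * t) * ∏ i, p i ^ e i ≤ (T * D) * D ^ n := Nat.mul_le_mul h2 h1
        _ = T * D ^ (n + 1) := by ring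
    exact_mod_cast h3
  have hsub : (Fintype.piFinset (fun _ : Fin k => optA p D T n)).image
      (fun f : Fin k → ℤ => ∑ i, f i) ⊆
      Finset.Icc 0 (((k * (T * D ^ (n + 1)) : ℕ) : ℤ)) := by
    intro z hz
    obtain ⟨f, hf, rfl⟩ := Finset.mem_image.1 hz
    rw [Fintype.mem_piFinset] at hf
    rw [Finset.mem_Icc]
    refine ⟨Finset.sum_nonneg fun i _ => (hmem _ (hf i)).1, ?_⟩
    calc ∑ i, f i ≤ ∑ _i : Fin k, ((T * D ^ (n + 1) : ℕ) : ℤ) :=
          Finset.sum_le_sum fun i _ => (hmem _ (hf i)).2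
      _ = ((k * (T * D ^ (n + 1)) : ℕ) : ℤ) := by
          rw [Finset.sum_const, Finset.card_univ, Fintype.card_fin, nsmul_eq_mul]
          push_cast
          ring
  refine (Finset.card_le_card hsub).trans (le_of_eq ?_)
  rw [Int.card_Icc]
  omega

/-- the first `r` primes are at most `4 (r + 1) ^ 2` -/
theorem nth_prime_le (r i : ℕ) (hi : i < r) : Nat.nth Nat.Prime i ≤ 4 * (r + 1) ^ 2 := by
  obtain ⟨m, hm⟩ : ∃ m : ℕ, m = 4 * (r + 1) ^ 2 := ⟨_, rfl⟩
  have h1 := Chebyshev.psi_ge m
  have h2 := Chebyshev.psi_le_primeCounting_mul_log m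
  have hr0 : (0 : ℝ) ≤ r := Nat.cast_nonneg r
  have hmr : (m : ℝ) = 4 * (r + 1) ^ 2 := by rw [hm]; push_cast; ring
  have hm4 : (4 : ℝ) ≤ m := by rw [hmr]; nlinarith
  have hlog2 : (0.69 : ℝ) ≤ Real.log 2 := by
    have := Real.log_two_gt_d9
    linarith
  have hlog2' : Real.log 2 ≤ 0.7 := by
    have := Real.log_two_lt_d9
    linarith
  have hlogr : Real.log (r + 1) ≤ r := by
    have := Real.log_le_sub_one_of_pos (show (0 : ℝ) < r + 1 by linarith)
    linarith
  have hlogm : Real.log m = 2 * Real.log 2 + 2 * Real.log (r + 1) := by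
    rw [hmr, Real.log_mul (by norm_num) (by positivity), Real.log_pow]
    have : Real.log 4 = 2 * Real.log 2 := by
      rw [show (4 : ℝ) = 2 ^ 2 by norm_num, Real.log_pow]
      norm_num
    rw [this]
    norm_num
  have hlogm1 : Real.log (m + 1) ≤ Real.log m + 1 / 4 := by
    have h3 : Real.log (m + 1) = Real.log m + Real.log ((m + 1) / m) := by
      rw [Real.log_div (by positivity) (by positivity)]
      ring
    have h4 := Real.log_le_sub_one_of_pos (show (0 : ℝ) < (m + 1) / m by positivity)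
    have h5 : ((m : ℝ) + 1) / m - 1 ≤ 1 / 4 := by
      rw [add_div, div_self (by positivity)]
      have : (1 : ℝ) / m ≤ 1 / 4 := one_div_le_one_div_of_le (by norm_num) hm4
      linarith
    linarith
  have hcount : r ≤ Nat.primeCounting m := by
    by_contra hcon
    push Not at hcon
    have h3 : (Nat.primeCounting m : ℝ) ≤ r := by exact_mod_cast hcon.le
    have hlm0 : 0 ≤ Real.log m := Real.log_nonneg (by linarith)
    have h4 : (m : ℝ) * Real.log 2 - Real.log (m + 1) ≤ r * Real.log m :=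
      h1.trans (h2.trans (mul_le_mul_of_nonneg_right h3 hlm0))
    have h5 : (m : ℝ) * 0.69 ≤ m * Real.log 2 :=
      mul_le_mul_of_nonneg_left hlog2 (by linarith)
    have h6 : (r : ℝ) * Real.log m ≤ r * (1.4 + 2 * r) :=
      mul_le_mul_of_nonneg_left (by rw [hlogm]; linarith) hr0
    have h7 : Real.log m ≤ 1.4 + 2 * r := by rw [hlogm]; linarith
    rw [hmr] at h5 h4
    nlinarith
  have h3 : i < Nat.count Nat.Prime (m + 1) := lt_of_lt_of_le hi hcount
  have h4 := Nat.nth_lt_of_lt_count h3
  omega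

/-- the number of elements which leave the extremal set -/
theorem bad_optA {r : ℕ} (p : Fin r → ℕ) (D T n : ℕ) (i : Fin r) :
    n * (bad ((p i : ℕ) : ℚ) (optA p D T n)).card ≤ T * n ^ r := by
  classical
  rcases Nat.eq_zero_or_pos n with hn | hn
  · rw [hn, zero_mul]
    exact Nat.zero_le _
  have hsub : bad ((p i : ℕ) : ℚ) (optA p D T n) ⊆
      (Finset.range T ×ˢ Fintype.piFinset (fun j : Fin r =>
        if j = i then {n - 1} else Finset.range n)).image
      (fun x : ℕ × (Fin r → ℕ) => (((1 + D * x.1) * ∏ i, p i ^ x.2 i : ℕ) : ℤ)) := by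
    intro a ha
    unfold bad at ha
    rw [Finset.mem_filter] at ha
    obtain ⟨haA, hb⟩ := ha
    unfold optA at haA
    rw [Finset.mem_image] at haA
    obtain ⟨⟨t, e⟩, hte, rfl⟩ := haA
    rw [Finset.mem_product, Finset.mem_range, Fintype.mem_piFinset] at hte
    obtain ⟨ht, he⟩ := hte
    simp only [Finset.mem_range] at ht he
    refine Finset.mem_image.2 ⟨(t, e), ?_, rfl⟩
    rw [Finset.mem_product, Fintype.mem_piFinset]
    refine ⟨Finset.mem_range.2 ht, fun j => ?_⟩
    by_cases hj : j = i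
    · subst hj
      rw [if_pos rfl, Finset.mem_singleton]
      by_contra hne
      have hlt : e j + 1 < n := by
        have h1 : e j ≠ n - 1 := hne
        have := he j
        omega
      refine hb ((((1 + D * t) * ∏ l, p l ^ (Function.update e j (e j + 1)) l : ℕ) : ℤ)) ?_ ?_
      · unfold optA
        refine Finset.mem_image.2 ⟨(t, Function.update e j (e j + 1)), ?_, rfl⟩
        rw [Finset.mem_product, Fintype.mem_piFinset]
        refine ⟨Finset.mem_range.2 ht, fun l => ?_⟩
        rw [Finset.mem_range]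
        by_cases hl : l = j
        · subst hl
          simp only [Function.update_self]
          exact hlt
        · simp only [Function.update_of_ne hl]
          exact he l
      · have h1 : ∏ l, p l ^ (Function.update e j (e j + 1)) l = p j * ∏ l, p l ^ e l := by
          rw [← Finset.mul_prod_erase univ _ (Finset.mem_univ j),
            ← Finset.mul_prod_erase univ (fun l => p l ^ e l) (Finset.mem_univ j),
            Function.update_self]
          have h2 : ∏ x ∈ univ.erase j, p x ^ Function.update e j (e j + 1) x =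
              ∏ x ∈ univ.erase j, p x ^ e x := by
            refine Finset.prod_congr rfl fun x hx => ?_
            rw [Function.update_of_ne (Finset.ne_of_mem_erase hx)]
          rw [h2, pow_succ]
          ring
        rw [h1]
        push_cast
        ring
    · rw [if_neg hj]
      exact Finset.mem_range.2 (he j)
  have h1 := (Finset.card_le_card hsub).trans Finset.card_image_le
  rw [Finset.card_product, Finset.card_range, Fintype.card_piFinset] at h1
  have h2 : ∏ j : Fin r, (if j = i then ({n - 1} : Finset ℕ) else Finset.range n).card =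
      n ^ (r - 1) := by
    rw [← Finset.mul_prod_erase univ _ (Finset.mem_univ i), if_pos rfl,
      Finset.card_singleton, one_mul]
    have h3 : ∏ x ∈ univ.erase i, (if x = i then ({n - 1} : Finset ℕ) else
        Finset.range n).card = ∏ _x ∈ univ.erase i, n := by
      refine Finset.prod_congr rfl fun x hx => ?_
      rw [if_neg (Finset.ne_of_mem_erase hx), Finset.card_range]
    rw [h3, Finset.prod_const, Finset.card_erase_of_mem (Finset.mem_univ i), Finset.card_univ,
      Fintype.card_fin]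
  rw [h2] at h1
  have hr : 0 < r := lt_of_le_of_lt (Nat.zero_le _) i.2
  calc n * (bad ((p i : ℕ) : ℚ) (optA p D T n)).card ≤ n * (T * n ^ (r - 1)) :=
        Nat.mul_le_mul_left _ h1
    _ = T * (n ^ (r - 1) * n) := by ring
    _ = T * n ^ r := by rw [← pow_succ, Nat.sub_add_cancel hr]

end Pool.Agent.Helper15.GPQ
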